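import Mathlib
import Pool.Agent.H39.R45.CrnZ
import Pool.Agent.H59.Q1.VE

set_option autoImplicit false
open Finset

/-!
# The views of the walls of a window

Family `i` (arc), several straight walls. `VI` : the inner ends of all ties of the family in the frame `ε`. `FWw` :
the ties `T` of one wall are the points `wp 1 x0 t`, `0 ≤ t ≤ N`. `vW` : the view.
-/

namespace Pool.Agent.H59.W

open Pool.Agent.H75.Perc Pool.Agent.H75.TwoArm Pool.Agent.H75.Four Pool.Agent.H69.Q1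
open Pool.Agent.Q1 Pool.Agent.H99.NC Pool.Agent.H49.Perc Pool.Agent.H60.Q1
open Pool.Agent.H39.Q1 Pool.Agent.H59.Q1 Pool.Agent.Q1.M6e Pool.Agent.H39.R45
open Pool.Agent.H20.Q1 (Eh CS hf)

variable {ι : Type*} [DecidableEq ι]

/-- inner ends of the ties of the family `i` in the frame `ε` -/
noncomputable def VI (TT : Finset (ℤ × ℤ)) (fm : ℤ × ℤ → ι) (b : ℤ × ℤ → ℤ × ℤ) (i : ι)
    (ε : Bool × Bool) : Finset (ℤ × ℤ) := (TF TT fm i).image fun e => gm ε (b e)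

/-- **a straight wall of the family `i` with the ties `T`** -/
structure FWw (TT : Finset (ℤ × ℤ)) (fm : ℤ × ℤ → ι) (b : ℤ × ℤ → ℤ × ℤ) (La : Finset (ℤ × ℤ))
    (i : ι) (ε : Bool × Bool) (T : Finset (ℤ × ℤ)) (x0 : ℤ × ℤ) (N : ℤ) : Prop where
  odd : ∀ l ∈ La, (l.1 + l.2) % 2 = 1
  sub : T ⊆ TF TT fm i
  wall : ∀ e ∈ T, ∃ t, (0 ≤ t ∧ t ≤ N) ∧ gm ε (b e) = wp 1 x0 t
  full : ∀ t, 0 ≤ t → t ≤ N → ∃ e ∈ TF TT fm i, gm ε (b e) = wp 1 x0 t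
  inj : ∀ e ∈ TF TT fm i, ∀ e' ∈ TF TT fm i, b e = b e' → e = e'

/-- the view of a wall -/
noncomputable def vW (TT : Finset (ℤ × ℤ)) (fm : ℤ × ℤ → ι) (co : ι → Bool)
    (La : ι → Finset (ℤ × ℤ)) (b : ℤ × ℤ → ℤ × ℤ) (i : ι) (ε : Bool × Bool)
    (Ω : Finset (ℤ × ℤ)) : Finset (ℤ × ℤ) :=
  vwV (vpi TT fm co b i ε) (co i) (Lx co La i ε) (VI TT fm b i ε) Ω

variable {B TT Ω ω P k T FlT : Finset (ℤ × ℤ)} {fm : ℤ × ℤ → ι} {co : ι → Bool}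
  {La : ι → Finset (ℤ × ℤ)} {b : ℤ × ℤ → ℤ × ℤ} {e e' l : ℤ × ℤ} {i : ι} {ε : Bool × Bool}
  {x0 : ℤ × ℤ} {N R h : ℤ} {σ : ℝ}

lemma mem_VI {y : ℤ × ℤ} : y ∈ VI TT fm b i ε ↔ ∃ e ∈ TF TT fm i, gm ε (b e) = y := by
  unfold VI; rw [mem_image]

lemma FWw.vpi_tie (hF : FWw TT fm b (La i) i ε T x0 N) (he : e ∈ TF TT fm i) :
    vpi TT fm co b i ε (gm ε (b e) + gm ε (b e)) = e := by
  classical
  have h : ∃ e' ∈ TF TT fm i, gm ε (b e') + gm ε (b e') = gm ε (b e) + gm ε (b e) := ⟨e, he, rfl⟩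
  unfold vpi
  rw [if_neg (dbl_even _), dif_pos h]
  obtain ⟨h1, h2⟩ := h.choose_spec
  exact hF.inj _ h1 _ he (gm_inj (dd_inj h2))

lemma FWw.odd_Lx (hF : FWw TT fm b (La i) i ε T x0 N) (hl : l ∈ Lx co La i ε) :
    (l.1 + l.2) % 2 = 1 := by
  unfold Lx at hl
  rw [mem_lm] at hl
  have := hF.odd _ hl
  rwa [tc_par, gm_par] at this

/-- labels of the view -/
lemma FWw.cases (hF : FWw TT fm b (La i) i ε T x0 N)
    (hl : l ∈ H59.Q1.EV (Lx co La i ε) (VI TT fm b i ε)) :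
    ((l.1 + l.2) % 2 = 1 ∧ l ∈ Lx co La i ε) ∨
      ∃ e ∈ TF TT fm i, l = gm ε (b e) + gm ε (b e) := by
  unfold H59.Q1.EV at hl
  rcases mem_union.1 hl with h1 | h1
  · exact Or.inl ⟨hF.odd_Lx h1, h1⟩
  · right
    unfold Td at h1
    obtain ⟨y, hy, rfl⟩ := mem_image.1 h1
    obtain ⟨e, he, rfl⟩ := mem_VI.1 hy
    exact ⟨e, he, rfl⟩

lemma tie_memV (he : e ∈ TF TT fm i) :
    gm ε (b e) + gm ε (b e) ∈ H59.Q1.EV (Lx co La i ε) (VI TT fm b i ε) :=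
  mem_union_right _ (mem_Td.2 (mem_VI.2 ⟨e, he, rfl⟩))

lemma FWw.vpi_inj (hF : FWw TT fm b (La i) i ε T x0 N) (hd : Disjoint (La i) TT) :
    ∀ l ∈ H59.Q1.EV (Lx co La i ε) (VI TT fm b i ε), ∀ l' ∈ H59.Q1.EV (Lx co La i ε) (VI TT fm b i ε),
      vpi TT fm co b i ε l = vpi TT fm co b i ε l' → l = l' := by
  intro l hl l' hl' h
  rcases hF.cases hl with ⟨g1, g2⟩ | ⟨e, he, rfl⟩
  · rcases hF.cases hl' with ⟨g3, g4⟩ | ⟨e', he', rfl⟩
    · rw [vpi_odd g1, vpi_odd g3] at h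
      exact gm_inj (sub_left_injective h)
    · rw [vpi_odd g1, hF.vpi_tie he'] at h
      unfold Lx at g2
      rw [mem_lm, h] at g2
      exact absurd (mem_TF.1 he').1 (disjoint_left.1 hd g2)
  · rcases hF.cases hl' with ⟨g3, g4⟩ | ⟨e', he', rfl⟩
    · rw [vpi_odd g3, hF.vpi_tie he] at h
      unfold Lx at g4
      rw [mem_lm, ← h] at g4
      exact absurd (mem_TF.1 he).1 (disjoint_left.1 hd g4)
    · rw [hF.vpi_tie he, hF.vpi_tie he'] at h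
      rw [h]

lemma FWw.vpi_mem (hF : FWw TT fm b (La i) i ε T x0 N) (hLB : La i ⊆ B) :
    ∀ l ∈ H59.Q1.EV (Lx co La i ε) (VI TT fm b i ε), vpi TT fm co b i ε l ∈ B ∪ TT := by
  intro l hl
  rcases hF.cases hl with ⟨g1, g2⟩ | ⟨e, he, rfl⟩
  · rw [vpi_odd g1]
    unfold Lx at g2
    rw [mem_lm] at g2
    exact mem_union_left _ (hLB g2)
  · rw [hF.vpi_tie he]
    exact mem_union_right _ (mem_TF.1 he).1

/-- **the wall in the product space** -/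
theorem FWw.famE (hF : FWw TT fm b (La i) i ε T x0 N) (hd : Disjoint B TT) (hLB : La i ⊆ B) {D : ℤ}
    (hW : WallE (Lx co La i ε) (VI TT fm b i ε) x0 N D) :
    FamE (qE TT σ) (B ∪ TT) σ (Lx co La i ε) (VI TT fm b i ε) x0 N D (vpi TT fm co b i ε) where
  we := hW
  inj := hF.vpi_inj (hd.mono_left hLB)
  map := hF.vpi_mem hLB
  qL := by
    intro l hl
    unfold qE
    rw [if_neg]
    intro h2
    rw [vpi_odd (hF.odd_Lx hl)] at h2
    unfold Lx at hl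
    rw [mem_lm] at hl
    exact disjoint_left.1 hd (hLB hl) h2
  qT := by
    intro l hl
    unfold Td at hl
    obtain ⟨y, hy, rfl⟩ := mem_image.1 hl
    obtain ⟨e, he, rfl⟩ := mem_VI.1 hy
    rw [hF.vpi_tie he]
    unfold qE
    rw [if_pos (mem_TF.1 he).1]

/-- the bulk labels of the view -/
lemma FWw.vw_L (hF : FWw TT fm b (La i) i ε T x0 N) (hLB : La i ⊆ B) :
    vW TT fm co La b i ε Ω ∩ Lx co La i ε = eta co La i ε (Ω ∩ B) := by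
  have h1 := push_gr (co := co) (La := La) (i := i) (ε := ε) hLB (inter_subset_right : Ω ∩ B ⊆ B)
  unfold eta
  rw [← h1]
  unfold vW vwV
  show _ = push (co i) ε B (Ω ∩ B) ∩ Lx co La i ε
  ext l
  rw [mem_inter, mem_inter]
  refine and_congr_left fun h3 => ?_
  rw [H59.Q1.mem_pull, mem_push inter_subset_right]
  have h4 := hF.odd_Lx h3
  have h5 : gm ε l - tc (co i) ∈ La i := by unfold Lx at h3; rwa [mem_lm] at h3
  have h6 := hLB h5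
  have h7 : l ∈ H59.Q1.EV (Lx co La i ε) (VI TT fm b i ε) := mem_union_left _ h3
  rw [vpi_odd h4, mem_inter]
  unfold flb
  rcases hco : co i with _ | _
  · rw [hco] at h6
    have : ¬ (false = true) := Bool.false_ne_true
    tauto
  · rw [hco] at h6
    have : ¬ (true = false) := by decide
    tauto

/-- the ties of the view -/
lemma FWw.vw_T (hF : FWw TT fm b (La i) i ε T x0 N) (he : e ∈ TF TT fm i) :
    gm ε (b e) + gm ε (b e) ∈ vW TT fm co La b i ε Ω ↔ e ∈ Ω ∩ TT := by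
  unfold vW vwV
  rw [H59.Q1.mem_pull, hF.vpi_tie he, mem_inter]
  have h1 := tie_memV (co := co) (La := La) (b := b) (ε := ε) he
  have h2 := (mem_TF.1 he).1
  have h3 : ¬ flb (co i) (gm ε (b e) + gm ε (b e)) := fun h => dbl_even _ h.2
  tauto

/-! ### classes -/

lemma FWw.co_iff (hF : FWw TT fm b (La i) i ε T x0 N) (hLB : La i ⊆ B) (u v : ℤ × ℤ) :
    Co (vW TT fm co La b i ε Ω ∩ Lx co La i ε) (gm ε u) (gm ε v) ↔
      Co (gr co La i (Ω ∩ B)) u v := by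
  rw [hF.vw_L hLB]
  unfold eta
  rw [Co_gm_iff, gm_gm, gm_gm]

/-- size of a class -/
lemma FWw.Mc_of (hF : FWw TT fm b (La i) i ε T x0 N) (hLB : La i ⊆ B) (hi : fm e = i) {δ u0 v0 : ℤ}
    (hδ : δ = 1 ∨ δ = -1) (hR : 4 * R ≤ h) (hm : Mac fm co La b δ u0 v0 h (Ω ∩ B) e) :
    Mc (Lx co La i ε) R (gm ε (b e)) (vW TT fm co La b i ε Ω) := by
  subst hi
  obtain ⟨x, h1, h2⟩ := hm
  refine ⟨gm ε x, ?_, (hF.co_iff hLB _ _).2 h1⟩
  rw [Far_gm, gm_gm]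
  unfold Far
  unfold cU cV cx cy nd at h2
  rcases hco : co (fm e) with _ | _ <;> rw [hco] at h2 <;>
    simp only [Bool.false_eq_true, if_false, if_true] at h2 <;>
    simp only [le_abs] at h2 ⊢ <;>
    rcases hδ with rfl | rfl <;> omega

/-- class without marks -/
lemma FWw.Un_of (hF : FWw TT fm b (La i) i ε T x0 N) (hLB : La i ⊆ B) (hi : fm e = i)
    (hd : Disjoint (Ω ∩ TT) (cls TT fm co La b (Ω ∩ B) e)) :
    UnV (VI TT fm b i ε) (Lx co La i ε) (gm ε (b e)) (vW TT fm co La b i ε Ω) := by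
  intro y hy h3 h4
  obtain ⟨e', he', rfl⟩ := mem_VI.1 hy
  have h6 := (hF.vw_T he').1 h4
  rw [hF.co_iff hLB] at h3
  have h7 : e' ∈ cls TT fm co La b (Ω ∩ B) e := by
    rw [mem_cls]
    obtain ⟨g1, g2⟩ := mem_TF.1 he'
    exact ⟨⟨g1, g2.trans hi.symm⟩, by rw [hi]; exact h3⟩
  exact disjoint_left.1 hd h6 h7

/-- two classes -/
lemma FWw.not_co (hF : FWw TT fm b (La i) i ε T x0 N) (hLB : La i ⊆ B) (he : e ∈ TF TT fm i)
    (he' : e' ∈ TF TT fm i)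
    (hne : cls TT fm co La b (Ω ∩ B) e ≠ cls TT fm co La b (Ω ∩ B) e') :
    ¬ Co (vW TT fm co La b i ε Ω ∩ Lx co La i ε) (gm ε (b e)) (gm ε (b e')) := by
  intro h
  rw [hF.co_iff hLB] at h
  obtain ⟨g1, g2⟩ := mem_TF.1 he
  obtain ⟨g3, g4⟩ := mem_TF.1 he'
  refine hne (cls_eq_of (mem_cls.2 ⟨⟨g3, g4.trans g2.symm⟩, ?_⟩)).symm
  rw [g2]; exact h

/-- a class of `UM` which contains a tie `e'` of the family: radius and marks seen from `e'` -/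
lemma FWw.of_UM (hF : FWw TT fm b (La i) i ε T x0 N) (hLB : La i ⊆ B) {δ u0 v0 : ℤ}
    (hδ : δ = 1 ∨ δ = -1) (hR : 8 * R ≤ h)
    (hk : k ∈ UM TT fm co La b δ u0 v0 h (Ω ∩ B) (Ω ∩ TT)) (he' : e' ∈ k) (hi : fm e' = i) :
    e' ∈ TF TT fm i ∧ cls TT fm co La b (Ω ∩ B) e' = k ∧
      Mc (Lx co La i ε) R (gm ε (b e')) (vW TT fm co La b i ε Ω) ∧
      UnV (VI TT fm b i ε) (Lx co La i ε) (gm ε (b e')) (vW TT fm co La b i ε Ω) := by
  obtain ⟨h1, h2, e, h3, h4⟩ := mem_UM.1 hk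
  have c1 := cls_of_mem h1 h3
  have c2 := cls_of_mem h1 he'
  have he'1 : e' ∈ cls TT fm co La b (Ω ∩ B) e := by rw [c1]; exact he'
  obtain ⟨⟨g1, g2⟩, g3⟩ := mem_cls.1 he'1
  have hei : fm e = i := g2.symm.trans hi
  have m1 := hF.Mc_of (R := 2 * R) hLB hei hδ (by omega) h4
  refine ⟨mem_TF.2 ⟨g1, hi⟩, c2, m1.half ?_, hF.Un_of hLB hi (by rw [c2]; exact h2)⟩
  rw [hF.co_iff hLB, ← hei]
  exact g3

/-- **a class without marks near a point of the wall** -/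
lemma FWw.CZ_of (hF : FWw TT fm b (La i) i ε T x0 N) (hLB : La i ⊆ B) {δ u0 v0 τ ρ1 : ℤ}
    (hδ : δ = 1 ∨ δ = -1) (hR : 8 * R ≤ h)
    (hk : k ∈ UM TT fm co La b δ u0 v0 h (Ω ∩ B) (Ω ∩ TT)) (he' : e' ∈ k) (hT : e' ∈ T)
    (hin : inR (wp 1 x0 τ) ρ1 (gm ε (b e'))) :
    CZV 1 (Lx co La i ε) (VI TT fm b i ε) x0 N τ ρ1 R (vW TT fm co La b i ε Ω) := by
  have hi := (mem_TF.1 (hF.sub hT)).2
  obtain ⟨-, -, h3, h4⟩ := hF.of_UM hLB hδ hR hk he' hi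
  obtain ⟨t, ht, h5⟩ := hF.wall e' hT
  rw [h5] at h3 h4 hin
  exact ⟨t, ht, h3, h4, _, hin, Co.refl _ _⟩

open Classical in
/-- classes without marks with a tie in `T` -/
noncomputable def UMT (TT : Finset (ℤ × ℤ)) (fm : ℤ × ℤ → ι) (co : ι → Bool)
    (La : ι → Finset (ℤ × ℤ)) (b : ℤ × ℤ → ℤ × ℤ) (δ u0 v0 h : ℤ) (ω P T : Finset (ℤ × ℤ)) :
    Finset (Finset (ℤ × ℤ)) := (UM TT fm co La b δ u0 v0 h ω P).filter fun k => ∃ e ∈ k, e ∈ T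

/-- **the classes of one wall in its view** -/
theorem FWw.card_UMT (hF : FWw TT fm b (La i) i ε T x0 N) (hLB : La i ⊆ B) {δ u0 v0 : ℤ}
    (hδ : δ = 1 ∨ δ = -1) (hR : 8 * R ≤ h) :
    (UMT TT fm co La b δ u0 v0 h (Ω ∩ B) (Ω ∩ TT) T).card ≤
      NUV 1 (Lx co La i ε) (VI TT fm b i ε) x0 N R (vW TT fm co La b i ε Ω) := by
  classical
  set K := UMT TT fm co La b δ u0 v0 h (Ω ∩ B) (Ω ∩ TT) T with hK
  have hch : ∀ k ∈ K, ∃ t : ℤ, (0 ≤ t ∧ t ≤ N) ∧ ∃ e, e ∈ TF TT fm i ∧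
      gm ε (b e) = wp 1 x0 t ∧ cls TT fm co La b (Ω ∩ B) e = k ∧
      Mc (Lx co La i ε) R (gm ε (b e)) (vW TT fm co La b i ε Ω) ∧
      UnV (VI TT fm b i ε) (Lx co La i ε) (gm ε (b e)) (vW TT fm co La b i ε Ω) := by
    intro k hk
    obtain ⟨h1, e', he', hT⟩ := mem_filter.1 hk
    obtain ⟨g1, g2, g3, g4⟩ := hF.of_UM hLB hδ hR h1 he' (mem_TF.1 (hF.sub hT)).2
    obtain ⟨t, ht, h6⟩ := hF.wall e' hT
    exact ⟨t, ht, e', g1, h6, g2, g3, g4⟩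
  choose! t ht e he2 he3 he4 he5 he6 using hch
  have hcard : (K.image t).card = K.card := by
    refine card_image_of_injOn fun k hk k' hk' h => ?_
    have h1 : gm ε (b (e k)) = gm ε (b (e k')) := by
      rw [he3 k hk, he3 k' hk', h]
    have h2 := hF.inj _ (he2 k hk) _ (he2 k' hk') (gm_inj h1)
    rw [← he4 k hk, ← he4 k' hk', h2]
  rw [← hcard]
  refine NUV_ge ?_ ⟨?_, ?_⟩
  · intro s hs
    obtain ⟨k, hk, rfl⟩ := mem_image.1 hs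
    exact mem_Icc.2 (ht k hk)
  · intro s hs
    obtain ⟨k, hk, rfl⟩ := mem_image.1 hs
    rw [← he3 k hk]
    exact ⟨he5 k hk, he6 k hk⟩
  · intro s hs s' hs' hne
    obtain ⟨k, hk, rfl⟩ := mem_image.1 hs
    obtain ⟨k', hk', rfl⟩ := mem_image.1 hs'
    rw [← he3 k hk, ← he3 k' hk']
    refine hF.not_co hLB (he2 k hk) (he2 k' hk') ?_
    rw [he4 k hk, he4 k' hk']
    rintro rfl
    exact hne rfl

end Pool.Agent.H59.W
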