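import Mathlib
import Pool.Agent.H59.W.ViewW
import Pool.Agent.H44.FM.AsmW2

set_option autoImplicit false
open Finset

/-!
# All walls of a window

`WD` : the walls of all arcs. `UVW` : number of classes without marks in all views (a class which touches several
walls is counted several times). `WD.UM_le`, `WD.crn_mean` : the weights of the classes which contain a tie near an
end of their wall.
-/

namespace Pool.Agent.H59.W

open Pool.Agent.H75.Perc Pool.Agent.H75.TwoArm Pool.Agent.H75.Four Pool.Agent.H69.Q1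
open Pool.Agent.Q1 Pool.Agent.H99.NC Pool.Agent.H49.Perc Pool.Agent.H60.Q1
open Pool.Agent.H39.Q1 Pool.Agent.H59.Q1 Pool.Agent.Q1.M6e Pool.Agent.H39.R45
open Pool.Agent.H20.Q1 (Eh CS hf)
open Pool.Agent.H44.FM.AsmW (TW mem_TW)

variable {ι κ : Type} [DecidableEq ι] [DecidableEq κ]

/-- **the walls of all arcs**, `D` : size of the macroscopic classes -/
structure WD (B TT : Finset (ℤ × ℤ)) (fm : ℤ × ℤ → ι) (co : ι → Bool) (La : ι → Finset (ℤ × ℤ))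
    (b : ℤ × ℤ → ℤ × ℤ) (wl : ℤ × ℤ → κ) (fw : κ → ι) (ε : κ → Bool × Bool) (x0 : κ → ℤ × ℤ)
    (N : κ → ℤ) (D : ℤ) (Q : ℝ) : Prop where
  dBT : Disjoint B TT
  laB : ∀ i, La i ⊆ B
  fww : ∀ w, FWw TT fm b (La (fw w)) (fw w) (ε w) (TW TT wl w) (x0 w) (N w)
  we : ∀ w, WallE (Lx co La (fw w) (ε w)) (VI TT fm b (fw w) (ε w)) (x0 w) (N w) D
  sep : ∀ w w', w ≠ w' → SepV (Lx co La (fw w) (ε w)) (VI TT fm b (fw w) (ε w)) (x0 w) (N w)
    (vpi TT fm co b (fw w) (ε w)) (Lx co La (fw w') (ε w')) (VI TT fm b (fw w') (ε w')) (x0 w') (N w')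
    (vpi TT fm co b (fw w') (ε w'))
  len : ∀ w, (N w : ℝ) ≤ Q * D

variable {B TT Ω ω P k T FlT : Finset (ℤ × ℤ)} {fm : ℤ × ℤ → ι} {co : ι → Bool}
  {La : ι → Finset (ℤ × ℤ)} {b : ℤ × ℤ → ℤ × ℤ} {e e' l : ℤ × ℤ} {i : ι}
  {wl : ℤ × ℤ → κ} {fw : κ → ι} {ε : κ → Bool × Bool} {x0 : κ → ℤ × ℤ} {N : κ → ℤ} {w : κ}
  {D R h ρ : ℤ} {σ Q : ℝ} {rk : ℤ × ℤ → ℤ} {δ u0 v0 : ℤ}

/-- number of classes of the wall `w` in its view -/
noncomputable def nW (TT : Finset (ℤ × ℤ)) (fm : ℤ × ℤ → ι) (co : ι → Bool)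
    (La : ι → Finset (ℤ × ℤ)) (b : ℤ × ℤ → ℤ × ℤ) (fw : κ → ι) (ε : κ → Bool × Bool)
    (x0 : κ → ℤ × ℤ) (N : κ → ℤ) (R : ℤ) (Ω : Finset (ℤ × ℤ)) (w : κ) : ℕ :=
  NUV 1 (Lx co La (fw w) (ε w)) (VI TT fm b (fw w) (ε w)) (x0 w) (N w) R (vW TT fm co La b (fw w) (ε w) Ω)

section

variable [Fintype κ]

/-- number of classes in the views -/
noncomputable def UVW (TT : Finset (ℤ × ℤ)) (fm : ℤ × ℤ → ι) (co : ι → Bool)
    (La : ι → Finset (ℤ × ℤ)) (b : ℤ × ℤ → ℤ × ℤ) (fw : κ → ι) (ε : κ → Bool × Bool)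
    (x0 : κ → ℤ × ℤ) (N : κ → ℤ) (R : ℤ) (Ω : Finset (ℤ × ℤ)) : ℕ :=
  UUV univ (fun w => Lx co La (fw w) (ε w)) (fun w => VI TT fm b (fw w) (ε w)) x0 N
    (fun w => vpi TT fm co b (fw w) (ε w)) (fun w => co (fw w)) R Ω

omit [DecidableEq κ] in
lemma UVW_eq : UVW TT fm co La b fw ε x0 N R Ω = ∑ w, nW TT fm co La b fw ε x0 N R Ω w := rfl

omit [DecidableEq κ] in
lemma nW_le : nW TT fm co La b fw ε x0 N R Ω w ≤ UVW TT fm co La b fw ε x0 N R Ω := by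
  rw [UVW_eq]
  exact single_le_sum (f := nW TT fm co La b fw ε x0 N R Ω) (fun _ _ => Nat.zero_le _) (mem_univ w)

lemma nW_two {w' : κ} (hne : w ≠ w') : nW TT fm co La b fw ε x0 N R Ω w + nW TT fm co La b fw ε x0 N R Ω w' ≤
    UVW TT fm co La b fw ε x0 N R Ω := by
  rw [UVW_eq, ← sum_pair hne]
  exact sum_le_sum_of_subset (subset_univ _)

namespace WD

variable (h1 : WD B TT fm co La b wl fw ε x0 N D Q)

include h1

lemma famW : FamW (qE TT σ) (B ∪ TT) σ D Q univ (fun w => Lx co La (fw w) (ε w))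
    (fun w => VI TT fm b (fw w) (ε w)) x0 N (fun w => vpi TT fm co b (fw w) (ε w)) where
  fam := fun w _ => (h1.fww w).famE h1.dBT (h1.laB _) (h1.we w)
  sep := fun w _ w' _ hne => h1.sep w w' hne
  len := fun w _ => h1.len w

omit [Fintype κ] in
/-- a class with a tie in the wall `w` is counted there -/
lemma one_le (hδ : δ = 1 ∨ δ = -1) (hR : 8 * R ≤ h)
    (hk : k ∈ UM TT fm co La b δ u0 v0 h (Ω ∩ B) (Ω ∩ TT)) (he : e ∈ k) (hT : e ∈ TW TT wl w) :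
    1 ≤ nW TT fm co La b fw ε x0 N R Ω w := by
  classical
  have h2 := (h1.fww w).card_UMT (co := co) (Ω := Ω) (u0 := u0) (v0 := v0) (h1.laB _) hδ hR
  refine le_trans ?_ h2
  exact card_pos.2 ⟨k, mem_filter.2 ⟨hk, e, he, hT⟩⟩

lemma UM_le (hδ : δ = 1 ∨ δ = -1) (hR : 8 * R ≤ ρ) :
    (UM TT fm co La b δ u0 v0 ρ (Ω ∩ B) (Ω ∩ TT)).card ≤ UVW TT fm co La b fw ε x0 N R Ω := by
  classical
  have g1 : UM TT fm co La b δ u0 v0 ρ (Ω ∩ B) (Ω ∩ TT) ⊆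
      univ.biUnion fun w => UMT TT fm co La b δ u0 v0 ρ (Ω ∩ B) (Ω ∩ TT) (TW TT wl w) := by
    intro k hk
    obtain ⟨g2, g3, e, g4, g5⟩ := mem_UM.1 hk
    have g6 : e ∈ TT := by
      have : e ∈ cls TT fm co La b (Ω ∩ B) e := by rw [cls_of_mem g2 g4]; exact g4
      exact cls_sub this
    exact mem_biUnion.2 ⟨wl e, mem_univ _, mem_filter.2 ⟨hk, e, g4, mem_TW.2 ⟨g6, rfl⟩⟩⟩
  refine (card_le_card g1).trans (card_biUnion_le.trans ?_)
  rw [UVW_eq]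
  exact sum_le_sum fun w _ => (h1.fww w).card_UMT (h1.laB _) hδ hR

lemma mom_le (hσ0 : 0 ≤ σ) (hσ1 : σ ≤ 1) (hδ : δ = 1 ∨ δ = -1) (hR : 8 * R ≤ ρ) :
    Ex (qE TT σ) (B ∪ TT) (fun Ω => 3 ^ (UM TT fm co La b δ u0 v0 ρ (Ω ∩ B) (Ω ∩ TT)).card *
      ind (2 ≤ (UM TT fm co La b δ u0 v0 ρ (Ω ∩ B) (Ω ∩ TT)).card)) ≤
    Ex (qE TT σ) (B ∪ TT) (fun Ω => (3 : ℝ) ^ UVW TT fm co La b fw ε x0 N R Ω *
      ind (2 ≤ UVW TT fm co La b fw ε x0 N R Ω)) := by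
  refine Ex_mono (qE_pb hσ0 hσ1) fun Ω _ => ?_
  have h2 := h1.UM_le (Ω := Ω) (u0 := u0) (v0 := v0) hδ hR
  exact mul_le_mul (pow_le_pow_right₀ (by norm_num) h2) (ind_mono fun g => g.trans h2)
    (ind_nonneg _) (by positivity)

omit [Fintype κ] in
/-- a class of size `h` without marks and with a tie near an end of its wall -/
lemma CZ_of {τ : ℤ} (hδ : δ = 1 ∨ δ = -1) (hρ : 8 * R ≤ h)
    (hk : k ∈ UM TT fm co La b δ u0 v0 h (Ω ∩ B) (Ω ∩ TT)) (he : e ∈ k)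
    (hin : inR (wp 1 (x0 (wl e)) τ) ρ (gm (ε (wl e)) (b e))) :
    CZV 1 (Lx co La (fw (wl e)) (ε (wl e))) (VI TT fm b (fw (wl e)) (ε (wl e))) (x0 (wl e)) (N (wl e)) τ ρ R
      (vW TT fm co La b (fw (wl e)) (ε (wl e)) Ω) := by
  have heT : e ∈ TT := by
    obtain ⟨g1, -, -⟩ := mem_UM.1 hk
    have : e ∈ cls TT fm co La b (Ω ∩ B) e := by
      rw [cls_of_mem g1 he]; exact he
    exact cls_sub this
  exact (h1.fww (wl e)).CZ_of (h1.laB _) hδ hρ hk he (mem_TW.2 ⟨heT, rfl⟩) hin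

end WD

end

/-- the class of the tie `e` is macroscopic -/
def MC (TT : Finset (ℤ × ℤ)) (fm : ℤ × ℤ → ι) (co : ι → Bool) (La : ι → Finset (ℤ × ℤ))
    (b : ℤ × ℤ → ℤ × ℤ) (δ u0 v0 h : ℤ) (ω : Finset (ℤ × ℤ)) (e : ℤ × ℤ) : Prop :=
  ∃ e' ∈ cls TT fm co La b ω e, Mac fm co La b δ u0 v0 h ω e'

open Classical in
/-- classes without marks with a tie in `T` and a tie outside `FlT` -/
noncomputable def UMz (TT : Finset (ℤ × ℤ)) (fm : ℤ × ℤ → ι) (co : ι → Bool)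
    (La : ι → Finset (ℤ × ℤ)) (b : ℤ × ℤ → ℤ × ℤ) (δ u0 v0 h : ℤ) (ω P T FlT : Finset (ℤ × ℤ)) :
    Finset (Finset (ℤ × ℤ)) :=
  (UMT TT fm co La b δ u0 v0 h ω P T).filter fun k => ∃ e ∈ k, e ∉ FlT

/-- **weights of the first ties** -/
theorem crn_leW (hσ0 : 0 ≤ σ) (hσ1 : σ ≤ 1) (hT : T ⊆ TT)
    (hrk : ∀ e ∈ TT, ∀ e' ∈ TT, rk e = rk e' → e = e') :
    ∑ e ∈ T, crn TT fm co La b rk (MC TT fm co La b δ u0 v0 h) FlT σ e ω ≤
      Ex (fun _ => 1 - σ) TT (fun P => ((UMz TT fm co La b δ u0 v0 h ω P T FlT).card : ℝ)) := by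
  classical
  have hq : Pb (fun _ : ℤ × ℤ => 1 - σ) := Pb.const (by linarith) (by linarith)
  set G : ℤ × ℤ → Prop := fun e => (∀ e' ∈ cls TT fm co La b ω e, rk e ≤ rk e') ∧
    MC TT fm co La b δ u0 v0 h ω e ∧ ∃ e' ∈ cls TT fm co La b ω e, e' ∉ FlT with hG
  have h1 : ∀ e ∈ T, crn TT fm co La b rk (MC TT fm co La b δ u0 v0 h)
      FlT σ e ω = Ex (fun _ => 1 - σ) TT (fun P => ind (G e) *
        ind (∀ k ∈ ({cls TT fm co La b ω e} : Finset (Finset (ℤ × ℤ))), Disjoint P k)) := by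
    intro e _
    rw [Ex_smul, Ex_unt (fun k hk => by rw [mem_singleton.1 hk]; exact cls_sub)
      (by rw [coe_singleton]; exact Set.pairwiseDisjoint_singleton _ _)]
    unfold crn
    rw [prod_singleton]
    simp only [sub_sub_cancel]
    rw [prod_const]
    ring
  rw [sum_congr rfl h1, ← Ex_sum]
  refine Ex_mono hq fun P _ => ?_
  have h2 : ∑ e ∈ T, ind (G e) *
      ind (∀ k ∈ ({cls TT fm co La b ω e} : Finset (Finset (ℤ × ℤ))), Disjoint P k) =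
      ((T.filter fun e => G e ∧ Disjoint P (cls TT fm co La b ω e)).card : ℝ) := by
    rw [card_filter]
    push_cast
    refine sum_congr rfl fun e _ => ?_
    rw [← ind_and]
    unfold ind
    simp only [mem_singleton, forall_eq]
  rw [h2]
  have h3 : (T.filter fun e => G e ∧ Disjoint P (cls TT fm co La b ω e)).card ≤
      (UMz TT fm co La b δ u0 v0 h ω P T FlT).card := by
    refine card_le_card_of_injOn (cls TT fm co La b ω) ?_ ?_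
    · intro e he
      obtain ⟨g1, ⟨g2, g3, e', g4, g5⟩, g6⟩ := mem_filter.1 (mem_coe.1 he)
      have g7 := hT g1
      rw [mem_coe]
      unfold UMz UMT
      refine mem_filter.2 ⟨mem_filter.2 ⟨mem_UM.2 ⟨mem_image_of_mem _ g7, g6, g3⟩,
        e, self_cls g7, g1⟩, e', g4, g5⟩
    · intro e he e' he' heq
      obtain ⟨g1, ⟨g2, -, -⟩, -⟩ := mem_filter.1 (mem_coe.1 he)
      obtain ⟨k1, ⟨k2, -, -⟩, -⟩ := mem_filter.1 (mem_coe.1 he')
      have m1 := hT g1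
      have m2 := hT k1
      refine hrk e m1 e' m2 (le_antisymm (g2 e' ?_) (k2 e ?_))
      · rw [heq]; exact self_cls m2
      · rw [← heq]; exact self_cls m1
  exact_mod_cast h3

section

variable [Fintype κ]

/-- **classes without marks near an end of the wall** -/
theorem WD.UMz_le (h1 : WD B TT fm co La b wl fw ε x0 N D Q)
    (hδ : δ = 1 ∨ δ = -1) (hR : 8 * R ≤ h) {ρ1 : ℤ}
    (hz : ∀ e ∈ TW TT wl w, e ∉ FlT → inR (wp 1 (x0 w) 0) ρ1 (gm (ε w) (b e)) ∨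
      inR (wp 1 (x0 w) (N w)) ρ1 (gm (ε w) (b e))) :
    ((UMz TT fm co La b δ u0 v0 h (Ω ∩ B) (Ω ∩ TT) (TW TT wl w) FlT).card : ℝ) ≤
      ind (CZV 1 (Lx co La (fw w) (ε w)) (VI TT fm b (fw w) (ε w)) (x0 w) (N w) 0 ρ1 R
        (vW TT fm co La b (fw w) (ε w) Ω)) +
      ind (CZV 1 (Lx co La (fw w) (ε w)) (VI TT fm b (fw w) (ε w)) (x0 w) (N w) (N w) ρ1 R
        (vW TT fm co La b (fw w) (ε w) Ω)) +
      3 ^ (UVW TT fm co La b fw ε x0 N R Ω) * ind (2 ≤ UVW TT fm co La b fw ε x0 N R Ω) := by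
  classical
  set Z := UMz TT fm co La b δ u0 v0 h (Ω ∩ B) (Ω ∩ TT) (TW TT wl w) FlT with hZ
  set U := UVW TT fm co La b fw ε x0 N R Ω with hU
  have hc0 : Z.card ≤ nW TT fm co La b fw ε x0 N R Ω w :=
    (card_le_card (filter_subset _ _)).trans ((h1.fww w).card_UMT (h1.laB _) hδ hR)
  have hcU : Z.card ≤ U := hc0.trans nW_le
  have hc : (Z.card : ℝ) ≤ U := by exact_mod_cast hcU
  have i1 := ind_nonneg (CZV 1 (Lx co La (fw w) (ε w)) (VI TT fm b (fw w) (ε w)) (x0 w) (N w) 0 ρ1 R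
        (vW TT fm co La b (fw w) (ε w) Ω))
  have i2 := ind_nonneg (CZV 1 (Lx co La (fw w) (ε w)) (VI TT fm b (fw w) (ε w)) (x0 w) (N w) (N w) ρ1 R
        (vW TT fm co La b (fw w) (ε w) Ω))
  by_cases h2 : 2 ≤ U
  · rw [ind_true h2, mul_one]
    have := n_le_three U
    linarith
  rw [ind_false h2, mul_zero, add_zero]
  rcases Z.eq_empty_or_nonempty with h3 | ⟨k, hk⟩
  · rw [h3, card_empty]; push_cast; linarith
  have hone : (Z.card : ℝ) ≤ 1 := by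
    have : Z.card ≤ 1 := by omega
    exact_mod_cast this
  obtain ⟨g1, e, g2, g3⟩ := mem_filter.1 hk
  obtain ⟨g4, e1, g5, g6⟩ := mem_filter.1 g1
  obtain ⟨g7, -, -⟩ := mem_UM.1 g4
  have heT : e ∈ TT := by
    have : e ∈ cls TT fm co La b (Ω ∩ B) e := by rw [cls_of_mem g7 g2]; exact g2
    exact cls_sub this
  by_cases hw : wl e = w
  · have he : e ∈ TW TT wl w := mem_TW.2 ⟨heT, hw⟩
    rcases hz e he g3 with h4 | h4
    · have := (h1.fww w).CZ_of (h1.laB _) hδ hR g4 g2 he h4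
      rw [ind_true this]
      linarith
    · have := (h1.fww w).CZ_of (h1.laB _) hδ hR g4 g2 he h4
      rw [ind_true this]
      linarith
  · exfalso
    have k1 := h1.one_le hδ hR g4 g5 g6
    have k2 := h1.one_le hδ hR g4 g2 (mem_TW.2 ⟨heT, rfl⟩)
    have k3 := nW_two (TT := TT) (fm := fm) (co := co) (La := La) (b := b) (fw := fw) (ε := ε)
      (x0 := x0) (N := N) (R := R) (Ω := Ω) hw
    omega

/-- **mean value** -/
theorem WD.crn_mean (h1 : WD B TT fm co La b wl fw ε x0 N D Q)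
    (hδ : δ = 1 ∨ δ = -1) (hR : 8 * R ≤ h) (hσ0 : 0 ≤ σ) (hσ1 : σ ≤ 1)
    (hrk : ∀ e ∈ TT, ∀ e' ∈ TT, rk e = rk e' → e = e') {ρ1 : ℤ}
    (hz : ∀ e ∈ TW TT wl w, e ∉ FlT → inR (wp 1 (x0 w) 0) ρ1 (gm (ε w) (b e)) ∨
      inR (wp 1 (x0 w) (N w)) ρ1 (gm (ε w) (b e))) :
    Ex hf B (fun ω => ∑ e ∈ TW TT wl w, crn TT fm co La b rk
      (MC TT fm co La b δ u0 v0 h) FlT σ e ω) ≤
      PrP (qE TT σ) (B ∪ TT) (fun Ω => CZV 1 (Lx co La (fw w) (ε w)) (VI TT fm b (fw w) (ε w)) (x0 w) (N w) 0 ρ1 R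
        (vW TT fm co La b (fw w) (ε w) Ω)) +
      PrP (qE TT σ) (B ∪ TT) (fun Ω => CZV 1 (Lx co La (fw w) (ε w)) (VI TT fm b (fw w) (ε w)) (x0 w) (N w) (N w)
        ρ1 R (vW TT fm co La b (fw w) (ε w) Ω)) +
      Ex (qE TT σ) (B ∪ TT) (fun Ω => (3 : ℝ) ^ UVW TT fm co La b fw ε x0 N R Ω *
          ind (2 ≤ UVW TT fm co La b fw ε x0 N R Ω)) := by
  refine (Ex_mono (fun _ => by norm_num : Pb hf) fun ω _ =>
    crn_leW (T := TW TT wl w) hσ0 hσ1 (filter_subset _ _) hrk).trans ?_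
  rw [← Ex_qE h1.dBT (F := fun ω P => ((UMz TT fm co La b δ u0 v0 h ω P (TW TT wl w) FlT).card : ℝ))]
  unfold PrP
  rw [← Ex_add, ← Ex_add]
  exact Ex_mono (qE_pb hσ0 hσ1) fun Ω _ => h1.UMz_le hδ hR hz

end

end Pool.Agent.H59.W
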