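import Mathlib
import Pool.Agent.H59.W.CrnW

set_option autoImplicit false
open Finset

/-!
# Windows: probabilities

`NZW` : a macroscopic class without marks has a tie near an end of its wall. `wd_bounds` : the two moments and the
intermediate scale needed for the error of the first order expansion. `wd_crn` : classes which contain a tie near an
end of their wall.
-/

namespace Pool.Agent.H59.W

open Pool.Agent.H75.Perc Pool.Agent.H75.TwoArm Pool.Agent.H75.Four Pool.Agent.H69.Q1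
open Pool.Agent.Q1 Pool.Agent.H99.NC Pool.Agent.H49.Perc Pool.Agent.H60.Q1
open Pool.Agent.H39.Q1 Pool.Agent.H59.Q1 Pool.Agent.Q1.M6e Pool.Agent.H39.R45
open Pool.Agent.H20.Q1 (Eh CS hf)
open Pool.Agent.H44.FM.AsmW (TW mem_TW)

/-- a class of size `h` without marks has a tie within `ρ` of an end of its wall -/
def NZW {ι κ : Type} [DecidableEq ι] (TT : Finset (ℤ × ℤ)) (fm : ℤ × ℤ → ι) (co : ι → Bool)
    (La : ι → Finset (ℤ × ℤ)) (b : ℤ × ℤ → ℤ × ℤ) (δ u0 v0 h : ℤ) (wl : ℤ × ℤ → κ)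
    (ε : κ → Bool × Bool) (x0 : κ → ℤ × ℤ) (N : κ → ℤ) (ρ : ℤ) (ω P : Finset (ℤ × ℤ)) : Prop :=
  ∃ k ∈ UM TT fm co La b δ u0 v0 h ω P, ∃ e ∈ k, ∃ τ : ℤ, (τ = 0 ∨ τ = N (wl e)) ∧
    inR (wp 1 (x0 (wl e)) τ) ρ (gm (ε (wl e)) (b e))

/-- **The moments and the intermediate scale.** -/
theorem wd_bounds : ∃ K0 c : ℝ, 16 ≤ K0 ∧ 0 < c ∧ c ≤ 1 ∧ ∀ (Q : ℝ) (n : ℕ), 1 ≤ Q →
    ∃ (C : ℝ) (D0 : ℤ), 0 < C ∧ ∀ {ι κ : Type} [DecidableEq ι] [DecidableEq κ] [Fintype κ],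
    Fintype.card κ ≤ n →
    ∀ (B TT : Finset (ℤ × ℤ)) (fm : ℤ × ℤ → ι) (co : ι → Bool) (La : ι → Finset (ℤ × ℤ))
      (b : ℤ × ℤ → ℤ × ℤ) (wl : ℤ × ℤ → κ) (fw : κ → ι) (ε : κ → Bool × Bool) (x0 : κ → ℤ × ℤ)
      (N : κ → ℤ) (D : ℤ) (σ : ℝ) (a0 : ℤ), WD B TT fm co La b wl fw ε x0 N D Q →
    1 / 4 ≤ σ → σ < 1 → 2 ≤ a0 → K0 ≤ (1 - σ) ^ ((3 : ℝ) / 2) * a0 → a0 ≤ D → D0 ≤ D →
    ∀ δ u0 v0 h : ℤ, (δ = 1 ∨ δ = -1) → 16 * D ≤ h → ∃ r : ℤ, a0 ≤ r ∧ r ≤ D ∧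
    Ex (qE TT σ) (B ∪ TT) (fun Ω => 3 ^ (UM TT fm co La b δ u0 v0 h (Ω ∩ B) (Ω ∩ TT)).card *
      ind (2 ≤ (UM TT fm co La b δ u0 v0 h (Ω ∩ B) (Ω ∩ TT)).card)) ≤ C * ((a0 : ℝ) / D) ^ (1 + c) ∧
    PrP (qE TT σ) (B ∪ TT) (fun Ω => 2 ≤ (UM TT fm co La b δ u0 v0 (16 * r) (Ω ∩ B) (Ω ∩ TT)).card) ≤
      C * ((a0 : ℝ) / D) ^ (1 + c) ∧
    ∀ ρ : ℤ, a0 ≤ ρ → ρ ≤ 64 * r → PrP (qE TT σ) (B ∪ TT) (fun Ω =>
      NZW TT fm co La b δ u0 v0 h wl ε x0 N ρ (Ω ∩ B) (Ω ∩ TT)) ≤ C * ((a0 : ℝ) / D) ^ (1 + c) := by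
  obtain ⟨K1, c1, hK1, hc1, hc11, hmom⟩ := pair_momentE
  obtain ⟨K2, C2, c2, e2, hK2, hC2, hc2, hc21, he2, he21, hmid⟩ := mid_termsE
  refine ⟨max K1 K2, min c1 c2, hK1.trans (le_max_left _ _), lt_min hc1 hc2,
    (min_le_left _ _).trans hc11, ?_⟩
  intro Q n hQ
  obtain ⟨C1, D0, hC1, hmom⟩ := hmom Q n hQ
  refine ⟨C1 + (C2 * (n : ℝ) ^ 2 * Q ^ 2 + n * (2 * (C2 * Q))), D0, by positivity, ?_⟩
  intro ι κ _ _ _ hn B TT fm co La b wl fw ε x0 N D σ a0 hwd hσ1 hσ2 ha0 hK0 haD hDD δ u0 v0 h hδ hDh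
  set c := min c1 c2 with hcdef
  have hσ0 : 0 ≤ σ := by linarith
  have hq := qE_pb (TT := TT) hσ0 hσ2.le
  have ha0' : (2 : ℝ) ≤ a0 := by exact_mod_cast ha0
  have haD' : (a0 : ℝ) ≤ D := by exact_mod_cast haD
  have hD0 : (0 : ℝ) < D := by linarith
  have hX0 : 0 < (a0 : ℝ) / D := by positivity
  have hX1 : (a0 : ℝ) / D ≤ 1 := by rw [div_le_one hD0]; exact haD'
  set Y : ℝ := ((a0 : ℝ) / D) ^ (1 + c) with hY
  have hY0 : 0 < Y := Real.rpow_pos_of_pos hX0 _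
  have hY1 : ((a0 : ℝ) / D) ^ (1 + c1) ≤ Y :=
    Real.rpow_le_rpow_of_exponent_ge hX0 hX1 (by have := min_le_left c1 c2; linarith)
  have hY2 : ((a0 : ℝ) / D) ^ (1 + c2) ≤ Y :=
    Real.rpow_le_rpow_of_exponent_ge hX0 hX1 (by have := min_le_right c1 c2; linarith)
  have hcard : ((univ : Finset κ).card : ℝ) ≤ n := by
    rw [card_univ]; exact_mod_cast hn
  have hS := hwd.famW (σ := σ)
  set r : ℤ := ⌈(D : ℝ) * ((a0 : ℝ) / D) ^ e2⌉ with hr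
  obtain ⟨har, hrD, hp1, hp2⟩ := hmid κ (qE TT σ) (B ∪ TT) σ hq hσ1 hσ2 a0 ha0
    ((le_max_right _ _).trans hK0) D Q haD hQ univ _ _ x0 N _ (fun w => co (fw w)) hS r rfl
  have hm1 := hmom κ (qE TT σ) (B ∪ TT) σ hq hσ1 hσ2 a0 ha0 ((le_max_left _ _).trans hK0) D haD hDD
    univ _ _ x0 N _ (fun w => co (fw w)) (by rw [card_univ]; exact hn) hS
  have hn0 : (0 : ℝ) ≤ n := Nat.cast_nonneg _
  have hA : 0 ≤ C2 * (n : ℝ) ^ 2 * Q ^ 2 := by positivity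
  have hB : 0 ≤ (n : ℝ) * (2 * (C2 * Q)) := by positivity
  refine ⟨r, har, hrD, ?_, ?_, ?_⟩
  · refine (hwd.mom_le (R := 2 * D) hσ0 hσ2.le hδ (by omega)).trans ?_
    refine (hm1.trans (mul_le_mul_of_nonneg_left hY1 hC1.le)).trans ?_
    exact mul_le_mul_of_nonneg_right (by linarith) hY0.le
  · refine (PrP_mono hq (B := fun Ω => 2 ≤ UVW TT fm co La b fw ε x0 N (2 * r) Ω) fun Ω _ hΩ =>
      hΩ.trans (hwd.UM_le hδ (by omega))).trans ?_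
    have g3 : C2 * ((univ : Finset κ).card : ℝ) ^ 2 * Q ^ 2 ≤ C2 * (n : ℝ) ^ 2 * Q ^ 2 :=
      mul_le_mul_of_nonneg_right (mul_le_mul_of_nonneg_left
        (pow_le_pow_left₀ (Nat.cast_nonneg _) hcard 2) hC2.le) (by positivity)
    refine (hp1.trans (mul_le_mul g3 hY2 (by positivity) (by positivity))).trans ?_
    exact mul_le_mul_of_nonneg_right (by linarith) hY0.le
  · intro ρ haρ hρ
    have g1 : PrP (qE TT σ) (B ∪ TT) (fun Ω =>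
        NZW TT fm co La b δ u0 v0 h wl ε x0 N ρ (Ω ∩ B) (Ω ∩ TT)) ≤
        PrP (qE TT σ) (B ∪ TT) (fun Ω => ∃ w ∈ (univ : Finset κ),
          (CZV 1 (Lx co La (fw w) (ε w)) (VI TT fm b (fw w) (ε w)) (x0 w) (N w) 0 ρ (2 * D)
            (vW TT fm co La b (fw w) (ε w) Ω) ∨
          CZV 1 (Lx co La (fw w) (ε w)) (VI TT fm b (fw w) (ε w)) (x0 w) (N w) (N w) ρ (2 * D)
            (vW TT fm co La b (fw w) (ε w) Ω))) := by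
      refine PrP_mono hq fun Ω _ hΩ => ?_
      obtain ⟨k, hk, e, he, τ, hτ, hin⟩ := hΩ
      have g2 := hwd.CZ_of (R := 2 * D) hδ (by omega) hk he hin
      rcases hτ with rfl | rfl
      · exact ⟨wl e, mem_univ _, Or.inl g2⟩
      · exact ⟨wl e, mem_univ _, Or.inr g2⟩
    refine g1.trans ((PrP_exists_le hq _ _ _).trans ?_)
    have g4 : ∀ w ∈ (univ : Finset κ), PrP (qE TT σ) (B ∪ TT) (fun Ω =>
        CZV 1 (Lx co La (fw w) (ε w)) (VI TT fm b (fw w) (ε w)) (x0 w) (N w) 0 ρ (2 * D)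
            (vW TT fm co La b (fw w) (ε w) Ω) ∨
          CZV 1 (Lx co La (fw w) (ε w)) (VI TT fm b (fw w) (ε w)) (x0 w) (N w) (N w) ρ (2 * D)
            (vW TT fm co La b (fw w) (ε w) Ω)) ≤ 2 * (C2 * Q) * Y := by
      intro w _
      refine (PrP_or_le hq _ _ _).trans ?_
      have g5 := hp2 w (mem_univ _) 0 (Or.inl rfl) ρ haρ hρ
      have g6 := hp2 w (mem_univ _) (N w) (Or.inr rfl) ρ haρ hρ
      have g7 : C2 * Q * ((a0 : ℝ) / D) ^ (1 + c2) ≤ C2 * Q * Y :=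
        mul_le_mul_of_nonneg_left hY2 (by positivity)
      have g8 := g5.trans g7
      have g9 := g6.trans g7
      calc _ ≤ C2 * Q * Y + C2 * Q * Y := add_le_add g8 g9
        _ = _ := by ring
    refine (sum_le_sum g4).trans ?_
    rw [sum_const, nsmul_eq_mul]
    have g10 : 0 ≤ 2 * (C2 * Q) * Y := by positivity
    calc ((univ : Finset κ).card : ℝ) * (2 * (C2 * Q) * Y) ≤ n * (2 * (C2 * Q) * Y) :=
          mul_le_mul_of_nonneg_right hcard g10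
      _ = n * (2 * (C2 * Q)) * Y := by ring
      _ ≤ _ := mul_le_mul_of_nonneg_right (by linarith) hY0.le

/-- **Classes which contain a tie near an end of their wall, or a tie of another wall.** -/
theorem wd_crn : ∃ K0 c : ℝ, 16 ≤ K0 ∧ 0 < c ∧ c ≤ 1 ∧ ∀ (Q : ℝ) (n : ℕ), 1 ≤ Q →
    ∃ (C : ℝ) (D0 : ℤ), 0 < C ∧ ∀ {ι κ : Type} [DecidableEq ι] [DecidableEq κ] [Fintype κ],
    Fintype.card κ ≤ n →
    ∀ (B TT : Finset (ℤ × ℤ)) (fm : ℤ × ℤ → ι) (co : ι → Bool) (La : ι → Finset (ℤ × ℤ))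
      (b : ℤ × ℤ → ℤ × ℤ) (wl : ℤ × ℤ → κ) (fw : κ → ι) (ε : κ → Bool × Bool) (x0 : κ → ℤ × ℤ)
      (N : κ → ℤ) (D : ℤ) (rk : ℤ × ℤ → ℤ) (σ : ℝ) (a0 ρ1 : ℤ) (w : κ) (FlT : Finset (ℤ × ℤ))
      (δ u0 v0 h : ℤ), WD B TT fm co La b wl fw ε x0 N D Q → (δ = 1 ∨ δ = -1) → 16 * D ≤ h →
    (∀ e ∈ TT, ∀ e' ∈ TT, rk e = rk e' → e = e') →
    (∀ e ∈ TW TT wl w, e ∉ FlT → inR (wp 1 (x0 w) 0) ρ1 (gm (ε w) (b e)) ∨
      inR (wp 1 (x0 w) (N w)) ρ1 (gm (ε w) (b e))) →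
    1 / 4 ≤ σ → σ < 1 → 2 ≤ a0 → K0 ≤ (1 - σ) ^ ((3 : ℝ) / 2) * a0 → a0 ≤ ρ1 → 16 * ρ1 ≤ D →
    D0 ≤ D →
    Ex hf B (fun ω => ∑ e ∈ TW TT wl w, crn TT fm co La b rk
      (MC TT fm co La b δ u0 v0 h) FlT σ e ω) ≤
      C * ((a0 : ℝ) / D) * ((ρ1 : ℝ) / D) ^ c := by
  obtain ⟨K1, c1, hK1, hc1, hc11, hmom⟩ := pair_momentE
  obtain ⟨K2, C2, c2, hK2, hC2, hc2, hc21, hcz⟩ := corner_zoneE
  refine ⟨max K1 K2, min c1 c2, hK1.trans (le_max_left _ _), lt_min hc1 hc2,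
    (min_le_left _ _).trans hc11, ?_⟩
  intro Q n hQ
  obtain ⟨C1, D0, hC1, hmom⟩ := hmom Q n hQ
  refine ⟨2 * (C2 * Q) + C1, D0, by positivity, ?_⟩
  intro ι κ _ _ _ hn B TT fm co La b wl fw ε x0 N D rk σ a0 ρ1 w FlT δ u0 v0 h hwd hδ hDh
    hrk hz hσ1 hσ2 ha0 hK0 haρ hρD hDD
  set c := min c1 c2 with hcdef
  have hσ0 : 0 ≤ σ := by linarith
  have hq := qE_pb (TT := TT) hσ0 hσ2.le
  have hc0 : 0 < c := lt_min hc1 hc2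
  have ha0' : (2 : ℝ) ≤ a0 := by exact_mod_cast ha0
  have haρ' : (a0 : ℝ) ≤ ρ1 := by exact_mod_cast haρ
  have hρD' : (ρ1 : ℝ) ≤ D := by exact_mod_cast (by omega : ρ1 ≤ D)
  have hD0 : (0 : ℝ) < D := by linarith
  have hX0 : 0 < (a0 : ℝ) / D := by positivity
  have hX1 : (a0 : ℝ) / D ≤ 1 := by rw [div_le_one hD0]; linarith
  have hr0 : 0 < (ρ1 : ℝ) / D := div_pos (by linarith) hD0
  have hr1 : (ρ1 : ℝ) / D ≤ 1 := by rw [div_le_one hD0]; exact hρD'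
  have har : (a0 : ℝ) / D ≤ ρ1 / D := div_le_div_of_nonneg_right haρ' hD0.le
  have hS := hwd.famW (σ := σ)
  have hm1 := hmom κ (qE TT σ) (B ∪ TT) σ hq hσ1 hσ2 a0 ha0 ((le_max_left _ _).trans hK0) D
    (by omega) hDD univ _ _ x0 N _ (fun w => co (fw w)) (by rw [card_univ]; exact hn) hS
  have h0 := hwd.crn_mean (w := w) (FlT := FlT) (δ := δ) (u0 := u0) (v0 := v0) (R := 2 * D) hδ
    (by omega : 8 * (2 * D) ≤ h) hσ0 hσ2.le hrk hz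
  refine h0.trans ?_
  have hF := (hwd.fww w).famE (co := co) (σ := σ) hwd.dBT (hwd.laB _) (hwd.we w)
  have hcz' : ∀ τ : ℤ, (τ = 0 ∨ τ = N w) → PrP (qE TT σ) (B ∪ TT) (fun Ω =>
      CZV 1 (Lx co La (fw w) (ε w)) (VI TT fm b (fw w) (ε w)) (x0 w) (N w) τ ρ1 (2 * D)
        (vW TT fm co La b (fw w) (ε w) Ω)) ≤
      C2 * Q * (((a0 : ℝ) / D) * ((ρ1 : ℝ) / D) ^ c) := by
    intro τ hτ
    have g1 : PrP (qE TT σ) (B ∪ TT) (fun Ω =>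
        CZV 1 (Lx co La (fw w) (ε w)) (VI TT fm b (fw w) (ε w)) (x0 w) (N w) τ ρ1 (2 * D)
        (vW TT fm co La b (fw w) (ε w) Ω)) =
        PrP (qb σ) (H59.Q1.EV (Lx co La (fw w) (ε w)) (VI TT fm b (fw w) (ε w)))
          (CZV 1 (Lx co La (fw w) (ε w)) (VI TT fm b (fw w) (ε w)) (x0 w) (N w) τ ρ1 (2 * D)) :=
      hF.law _
    rw [g1]
    refine (hcz _ _ _ _ D (hwd.we w) σ hσ1 hσ2 a0 ha0 ((le_max_right _ _).trans hK0) ρ1 haρ hρD τ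
      hτ).trans ?_
    have g2 : (N w : ℝ) / D ≤ Q := by rw [div_le_iff₀ hD0]; exact hwd.len w
    have g3 : ((ρ1 : ℝ) / D) ^ c2 ≤ ((ρ1 : ℝ) / D) ^ c :=
      Real.rpow_le_rpow_of_exponent_ge hr0 hr1 (min_le_right _ _)
    rw [mul_assoc]
    refine mul_le_mul (mul_le_mul_of_nonneg_left g2 hC2.le)
      (mul_le_mul_of_nonneg_left g3 hX0.le) (by positivity) (by positivity)
  have m1 : Ex (qE TT σ) (B ∪ TT) (fun Ω => (3 : ℝ) ^ UVW TT fm co La b fw ε x0 N (2 * D) Ω *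
      ind (2 ≤ UVW TT fm co La b fw ε x0 N (2 * D) Ω)) ≤
      C1 * (((a0 : ℝ) / D) * ((ρ1 : ℝ) / D) ^ c) := by
    refine hm1.trans ?_
    refine mul_le_mul_of_nonneg_left ?_ hC1.le
    rw [Real.rpow_add hX0, Real.rpow_one]
    refine mul_le_mul_of_nonneg_left ?_ hX0.le
    calc ((a0 : ℝ) / D) ^ c1 ≤ ((a0 : ℝ) / D) ^ c :=
          Real.rpow_le_rpow_of_exponent_ge hX0 hX1 (min_le_left _ _)
      _ ≤ ((ρ1 : ℝ) / D) ^ c := Real.rpow_le_rpow hX0.le har hc0.le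
  refine (add_le_add (add_le_add (hcz' 0 (Or.inl rfl)) (hcz' (N w) (Or.inr rfl))) m1).trans
    (le_of_eq ?_)
  ring

end Pool.Agent.H59.W
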