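import Mathlib
import Pool.Agent.H59.W.FstW
import Pool.Agent.H40.Sp.ErrW
import Pool.Agent.Q1.M6e.Wn.Fine

set_option autoImplicit false
open Finset

/-!
# Windows: the fields `irr`, `fst`, `crn` of `FineW`

`WCr` : the walls and the marked corners of one environment. `wc_fst` : error of the first order expansion.
`fine_win` : the three fields in the scale `R`.
-/

namespace Pool.Agent.H59.W

open Pool.Agent.H75.Perc Pool.Agent.H75.TwoArm Pool.Agent.H75.Four Pool.Agent.H69.Q1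
open Pool.Agent.Q1 Pool.Agent.H99.NC Pool.Agent.H49.Perc Pool.Agent.H60.Q1
open Pool.Agent.H39.Q1 Pool.Agent.H59.Q1 Pool.Agent.Q1.M6e Pool.Agent.H39.R45 Pool.Agent.H25.Q1.Add
open Pool.Agent.H20.Q1 (Eh CS hf)
open Pool.Agent.H44.FM.AsmW (TW mem_TW)
open Pool.Agent.H40.Sp (Cht CrW ErW)
open Pool.Agent.Q1.M6e.Wn

/-- **The walls and the marked corners of one environment.** -/
structure WCr {ι κ γ : Type} [DecidableEq ι] [DecidableEq κ] [DecidableEq γ]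
    (W Bb B TT : Finset (ℤ × ℤ)) (fm : ℤ × ℤ → ι) (co : ι → Bool)
    (Wl La : ι → Finset (ℤ × ℤ)) (b o : ℤ × ℤ → ℤ × ℤ) (h : ℤ) (Γ : Finset γ)
    (Tn : γ → Finset (ℤ × ℤ)) (Λ : γ → ι → Finset (ℤ × ℤ)) (L : γ → Finset (ℤ × ℤ))
    (iL iF : γ → ι) (χ : γ → Cht) (Um Vm Dm : γ → ℤ) (wl : ℤ × ℤ → κ) (fw : κ → ι)
    (ε : κ → Bool × Bool) (x0 : κ → ℤ × ℤ) (N : κ → ℤ) (D : ℤ) (Q : ℝ) : Prop where
  wd : WD B TT fm co La b wl fw ε x0 N D Q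
  cr : CrW W Bb B TT fm co Wl La b o h Γ Tn Λ L iL iF χ Um Vm Dm
  sur : ∀ c ∈ Γ, ∀ ρ ≤ h, ∀ ω, (χ c).Sur ρ (L c) ω
  lnk : ∀ c ∈ Γ, ∀ e ∈ TT, ∀ ρ : ℤ, 8 ≤ ρ →
    (0 ≤ (χ c).U (nd (co (fm e)) (b e)) ∧ (χ c).U (nd (co (fm e)) (b e)) ≤ 2 * ρ) →
    (0 ≤ (χ c).V (nd (co (fm e)) (b e)) ∧ (χ c).V (nd (co (fm e)) (b e)) ≤ 2 * ρ) →
    ∃ τ : ℤ, (τ = 0 ∨ τ = N (wl e)) ∧ inR (wp 1 (x0 (wl e)) τ) (2 * ρ) (gm (ε (wl e)) (b e))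
  D16 : 16 * D ≤ h

/-- **The error of the first order expansion.** -/
theorem wc_fst : ∃ K0 c : ℝ, 16 ≤ K0 ∧ 0 < c ∧ c ≤ 1 ∧ ∀ (Q K : ℝ) (n : ℕ), 1 ≤ Q → 1 ≤ K →
    ∃ (C : ℝ) (D0 : ℤ), 0 < C ∧ ∀ {ι κ γ : Type} [DecidableEq ι] [DecidableEq κ] [DecidableEq γ]
      [Fintype κ], Fintype.card κ ≤ n → ∀ (Γ : Finset γ), Γ.card ≤ n →
    ∀ (X : Pool.Agent.Q1.Env) (W Bb B TT Cs : Finset (ℤ × ℤ)) (fm : ℤ × ℤ → ι) (co : ι → Bool)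
      (Wl La : ι → Finset (ℤ × ℤ)) (b o : ℤ × ℤ → ℤ × ℤ) (h : ℤ)
      (Tn : γ → Finset (ℤ × ℤ)) (Λ : γ → ι → Finset (ℤ × ℤ)) (L : γ → Finset (ℤ × ℤ))
      (iL iF : γ → ι) (χ : γ → Cht) (Um Vm Dm : γ → ℤ) (wl : ℤ × ℤ → κ) (fw : κ → ι)
      (ε : κ → Bool × Bool) (x0 : κ → ℤ × ℤ) (N : κ → ℤ) (D : ℤ)
      (rk : ℤ × ℤ → ℤ) (a s : ℤ × ℤ → ℂ) (σ M : ℝ) (a0 : ℤ),
    Multi X W Bb B TT fm co Wl La b o →
    WCr W Bb B TT fm co Wl La b o h Γ Tn Λ L iL iF χ Um Vm Dm wl fw ε x0 N D Q →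
    (∀ c ∈ Cs, FarM X TT fm co Wl La b o c) →
    (∀ g ∈ Γ, ∀ c ∈ Cs, FarM X TT fm co Wl (Λ g) b o c) →
    (∀ e ∈ TT, ∀ e' ∈ TT, rk e = rk e' → e = e') →
    (∀ e ∈ TT, ‖s e‖ ≤ σ) → (∀ e ∈ TT, ‖1 - s e‖ ≤ K * (1 - ‖s e‖)) → 1 / 4 ≤ σ → σ < 1 →
    (∀ ω ⊆ B, ∀ P ⊆ TT, ‖VM X Cs a Bb B TT fm co ω P‖ ≤ M) → 2 ≤ a0 →
    K0 ≤ (1 - σ) ^ ((3 : ℝ) / 2) * a0 → a0 ≤ D → D0 ≤ D →
    ‖Tot X Cs a Bb TT fm co s - Eh Bb (fun ω => U X Cs a (ω ∪ opn TT fm co TT)) -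
      ∑ e ∈ TT, Eh B (fun ω => FT (TF TT fm (fm e)) b rk s e (SM TT fm co La b e ω) *
        DM X Cs a Bb B TT fm co La b e ω)‖ ≤ C * M * ((a0 : ℝ) / D) ^ (1 + c) := by
  obtain ⟨K0, c, hK0, hc, hc1, hmain⟩ := wd_bounds
  refine ⟨K0, c, hK0, hc, hc1, ?_⟩
  intro Q K n hQ hK
  obtain ⟨C1, D0, hC1, hmain⟩ := hmain Q n hQ
  refine ⟨(1 + 4 * 3 ^ n * n) * K ^ n * (3 * C1), D0, by positivity, ?_⟩
  intro ι κ γ _ _ _ _ hn Γ hΓ X W Bb B TT Cs fm co Wl La b o h Tn Λ L iL iF χ Um Vm Dm wl fw ε x0 N D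
    rk a s σ M a0 hmul hw hc' hc'' hrk hs hs2 hσ1 hσ2 hV ha0 hKa haD hDD
  have hσ0 : 0 ≤ σ := by linarith
  have hM0 : 0 ≤ M := (norm_nonneg _).trans (hV ∅ (empty_subset _) ∅ (empty_subset _))
  have hq := qE_pb (TT := TT) hσ0 hσ2.le
  have ha0' : (2 : ℝ) ≤ a0 := by exact_mod_cast ha0
  have haD' : (a0 : ℝ) ≤ D := by exact_mod_cast haD
  have hD0 : (0 : ℝ) < D := by linarith
  have hX0 : 0 < (a0 : ℝ) / D := by positivity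
  set Y : ℝ := ((a0 : ℝ) / D) ^ (1 + c) with hY
  have hY0 : 0 < Y := Real.rpow_pos_of_pos hX0 _
  have hD16 := hw.D16
  have ha16 : 16 ≤ a0 := by
    have h1 : (1 - σ) ^ ((3 : ℝ) / 2) ≤ 1 :=
      Real.rpow_le_one (by linarith) (by linarith) (by norm_num)
    have h3 : (16 : ℝ) ≤ a0 := by nlinarith
    exact_mod_cast h3
  obtain ⟨r, har, hrD, m1, m2, m3⟩ := hmain hn B TT fm co La b wl fw ε x0 N D σ a0 hw.wd hσ1 hσ2 ha0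
    hKa haD hDD 1 0 0 h (Or.inl rfl) hD16
  have hrh : 16 * r ≤ h := by omega
  have h0 := hw.cr.first (rk := rk) (a := a) (s := s) hmul hc' hc'' hrk hK
    (fun e he => (hs e he).trans hσ2.le) hs2 hV
  refine h0.trans ((hw.cr.err_mean (ρ := 16 * r) hrh hmul hc' hc'' hw.sur hσ0 hσ2.le hs hM0
    hK).trans ?_)
  -- the intermediate scale
  have m4 : PrP (qE TT σ) (B ∪ TT) (fun Ω =>
      2 ≤ (UM TT fm co La b 1 0 0 (16 * r) (Ω ∩ B) (Ω ∩ TT)).card ∨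
        H40.Sp.NZW TT fm co La b h (16 * r) Γ χ (Ω ∩ B) (Ω ∩ TT)) ≤ 2 * (C1 * Y) := by
    have g1 : PrP (qE TT σ) (B ∪ TT) (fun Ω =>
        H40.Sp.NZW TT fm co La b h (16 * r) Γ χ (Ω ∩ B) (Ω ∩ TT)) ≤ C1 * Y := by
      refine le_trans (PrP_mono hq fun Ω _ hΩ => ?_) (m3 (32 * r) (by omega) (by omega))
      obtain ⟨c0, hc0, k, hk, e, he, h1, h2⟩ := hΩ
      have heT : e ∈ TT := by
        obtain ⟨g1, -, -⟩ := mem_UM.1 hk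
        have : e ∈ cls TT fm co La b (Ω ∩ B) e := by
          rw [cls_of_mem g1 he]; exact he
        exact cls_sub this
      obtain ⟨τ, hτ, h3⟩ := hw.lnk c0 hc0 e heT (16 * r) (by omega) h1 h2
      refine ⟨k, hk, e, he, τ, hτ, ?_⟩
      rw [show 32 * r = 2 * (16 * r) by ring]
      exact h3
    refine (PrP_or_le hq _ _ _).trans ?_
    rw [two_mul]
    exact add_le_add m2 g1
  have hΓ' : (Γ.card : ℝ) ≤ n := by exact_mod_cast hΓ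
  have hKΓ : K ^ Γ.card ≤ K ^ n := pow_le_pow_right₀ hK hΓ
  have h3Γ : (3 : ℝ) ^ Γ.card ≤ 3 ^ n := pow_le_pow_right₀ (by norm_num) hΓ
  have hg0 : (0 : ℝ) ≤ Γ.card := Nat.cast_nonneg _
  have hn0 : (0 : ℝ) ≤ n := Nat.cast_nonneg _
  set T : ℝ := (1 + 4 * 3 ^ n * n) * K ^ n with hT
  have hT0 : 0 < T := by positivity
  have p1 : 2 * 3 ^ Γ.card * (Γ.card : ℝ) ≤ 2 * 3 ^ n * n :=
    mul_le_mul (mul_le_mul_of_nonneg_left h3Γ (by norm_num)) hΓ' hg0 (by positivity)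
  have p2 : 0 ≤ (2 : ℝ) * 3 ^ n * n := by positivity
  have q1 : (1 + 2 * 3 ^ Γ.card * (Γ.card : ℝ)) * K ^ Γ.card ≤ T := by
    rw [hT]
    exact mul_le_mul (by linarith) hKΓ (by positivity) (by positivity)
  have q2 : 2 * 3 ^ Γ.card * (Γ.card : ℝ) * K ^ Γ.card ≤ T := by
    rw [hT]
    exact mul_le_mul (by linarith) hKΓ (by positivity) (by positivity)
  have e1 : 0 ≤ Ex (qE TT σ) (B ∪ TT) (fun Ω =>
      3 ^ (UM TT fm co La b 1 0 0 h (Ω ∩ B) (Ω ∩ TT)).card *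
        ind (2 ≤ (UM TT fm co La b 1 0 0 h (Ω ∩ B) (Ω ∩ TT)).card)) :=
    Ex_nonneg hq fun Ω _ => mul_nonneg (by positivity) (ind_nonneg _)
  have m5 : ((1 + 2 * 3 ^ Γ.card * Γ.card) * K ^ Γ.card) * M * Ex (qE TT σ) (B ∪ TT) (fun Ω =>
      3 ^ (UM TT fm co La b 1 0 0 h (Ω ∩ B) (Ω ∩ TT)).card *
        ind (2 ≤ (UM TT fm co La b 1 0 0 h (Ω ∩ B) (Ω ∩ TT)).card)) ≤ T * M * (C1 * Y) :=
    mul_le_mul (mul_le_mul_of_nonneg_right q1 hM0) m1 e1 (by positivity)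
  have m6 : (2 * 3 ^ Γ.card * Γ.card * K ^ Γ.card) * M * PrP (qE TT σ) (B ∪ TT) (fun Ω =>
      2 ≤ (UM TT fm co La b 1 0 0 (16 * r) (Ω ∩ B) (Ω ∩ TT)).card ∨
        H40.Sp.NZW TT fm co La b h (16 * r) Γ χ (Ω ∩ B) (Ω ∩ TT)) ≤ T * M * (2 * (C1 * Y)) :=
    mul_le_mul (mul_le_mul_of_nonneg_right q2 hM0) m4 (PrP_nonneg hq _ _) (by positivity)
  refine (add_le_add m5 m6).trans (le_of_eq ?_)
  ring

/-- the weights -/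
theorem wt_maxW {κ : Type} [Fintype κ] [Nonempty κ] {s : κ → ℂ} {K0 : ℝ} {a0 : ℤ} (hK0 : 0 < K0)
    (h1 : ∀ i, ‖s i‖ < 1) (ha : 2 ≤ a0)
    (h2 : ∀ i, 2 * K0 ≤ (1 - ‖s i‖) ^ ((3 : ℝ) / 2) * a0) :
    ∃ σ : ℝ, (∀ i, ‖s i‖ ≤ σ) ∧ 1 / 4 ≤ σ ∧ σ < 1 ∧ K0 ≤ (1 - σ) ^ ((3 : ℝ) / 2) * a0 := by
  have ha' : (2 : ℝ) ≤ a0 := by exact_mod_cast ha
  obtain ⟨w, -, hw⟩ := exists_max_image (univ : Finset κ) (fun i => ‖s i‖) univ_nonempty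
  have h14 : K0 ≤ (1 - 1 / 4 : ℝ) ^ ((3 : ℝ) / 2) * a0 := by
    have g1 : (1 - ‖s w‖) ^ ((3 : ℝ) / 2) ≤ 1 :=
      Real.rpow_le_one (by have := h1 w; linarith) (by have := norm_nonneg (s w); linarith)
        (by norm_num)
    have g2 : 2 * K0 ≤ a0 := (h2 w).trans (by nlinarith)
    have g3 : (1 / 2 : ℝ) ≤ (1 - 1 / 4 : ℝ) ^ ((3 : ℝ) / 2) := by
      have : (1 - 1 / 4 : ℝ) ^ (2 : ℝ) ≤ (1 - 1 / 4 : ℝ) ^ ((3 : ℝ) / 2) :=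
        Real.rpow_le_rpow_of_exponent_ge (by norm_num) (by norm_num) (by norm_num)
      refine le_trans ?_ this
      rw [show (2 : ℝ) = ((2 : ℕ) : ℝ) by norm_num, Real.rpow_natCast]
      norm_num
    nlinarith
  refine ⟨max ‖s w‖ (1 / 4), fun i => (hw i (mem_univ _)).trans (le_max_left _ _), le_max_right _ _,
    max_lt (h1 w) (by norm_num), ?_⟩
  rcases max_choice ‖s w‖ (1 / 4 : ℝ) with h | h
  · rw [h]; have := h2 w; linarith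
  · rw [h]; exact h14

/-- **The fields `irr`, `fst`, `crn` in the scale `R`.** -/
theorem fine_win : ∃ K c : ℝ, 0 < K ∧ 0 < c ∧ ∀ (Q θ : ℝ) (n : ℕ), 1 ≤ Q → 0 < θ →
    ∃ (C : ℝ) (D0 : ℤ), 0 < C ∧ ∀ {ι κ γ : Type} [DecidableEq ι] [DecidableEq κ] [DecidableEq γ]
      [Fintype κ] [Nonempty κ], Fintype.card κ ≤ n → ∀ (Γ : Finset γ), Γ.card ≤ n →
    ∀ (d : DatW ι κ) (Cs : Finset (ℤ × ℤ)) (h : ℤ)
      (Tn : γ → Finset (ℤ × ℤ)) (Λ : γ → ι → Finset (ℤ × ℤ)) (L : γ → Finset (ℤ × ℤ))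
      (iL iF : γ → ι) (χ : γ → Cht) (Um Vm Dm : γ → ℤ) (x0 : κ → ℤ × ℤ) (N : κ → ℤ) (D : ℤ)
      (R : ℕ) (R' : ℤ) (FlT : κ → Finset (ℤ × ℤ)),
    Multi d.X d.W d.Bb d.B d.TT d.fm d.co d.Wl d.La d.b d.o →
    WCr d.W d.Bb d.B d.TT d.fm d.co d.Wl d.La d.b d.o h Γ Tn Λ L iL iF χ Um Vm Dm d.wl d.fw d.ε x0 N
      D Q →
    (∀ c ∈ Cs, FarM d.X d.TT d.fm d.co d.Wl d.La d.b d.o c) →
    (∀ g ∈ Γ, ∀ c ∈ Cs, FarM d.X d.TT d.fm d.co d.Wl (Λ g) d.b d.o c) →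
    (∀ e ∈ d.TT, ∀ e' ∈ d.TT, d.rk e = d.rk e' → e = e') →
    (∀ w, ∀ e ∈ TW d.TT d.wl w, e ∉ FlT w → inR (wp 1 (x0 w) 0) (2 * R') (gm (d.ε w) (d.b e)) ∨
      inR (wp 1 (x0 w) (N w)) (2 * R') (gm (d.ε w) (d.b e))) →
    1 ≤ R → θ * R ≤ D → 32 * R' ≤ D → D0 ≤ D →
    (∀ (a : ℤ × ℤ → ℂ), ∀ ω ⊆ d.B, ∀ e ∈ d.TT,
      DM d.X Cs a d.Bb d.B d.TT d.fm d.co d.La d.b e ω ≠ 0 →
      MC d.TT d.fm d.co d.La d.b 1 0 0 h ω e) ∧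
    (∀ (a : ℤ × ℤ → ℂ) (M : ℝ), d.HV Cs a M → ∀ (s : κ → ℂ) (a0 : ℤ),
      (∀ w, ‖s w‖ < 1) → (∀ w, ‖1 - s w‖ ≤ 16 * (1 - ‖s w‖)) → 2 ≤ a0 → a0 ≤ R' →
      (∀ w, K ≤ (1 - ‖s w‖) ^ ((3 : ℝ) / 2) * a0) →
      ‖d.tot Cs a s - d.tot0 Cs a - d.fst Cs a s‖ ≤ C * M * ((a0 : ℝ) / R) ^ (1 + c)) ∧
    (∀ (w : κ) (σ : ℝ) (a0 : ℤ), 1 / 4 ≤ σ → σ < 1 → 2 ≤ a0 → a0 ≤ R' →
      K ≤ (1 - σ) ^ ((3 : ℝ) / 2) * a0 →
      Ex hf d.B (fun ω => ∑ e ∈ TW d.TT d.wl w,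
        crn d.TT d.fm d.co d.La d.b d.rk (MC d.TT d.fm d.co d.La d.b 1 0 0 h) (FlT w) σ e ω) ≤
        C * ((a0 : ℝ) / R) * ((R' : ℝ) / R) ^ c) := by
  obtain ⟨K1, c1, hK1, hc1, hc11, h1⟩ := wc_fst
  obtain ⟨K2, c2, hK2, hc2, hc21, h2⟩ := wd_crn
  refine ⟨max (2 * K1) K2, min c1 c2, lt_max_of_lt_left (by linarith), lt_min hc1 hc2, ?_⟩
  set c := min c1 c2 with hcdef
  have hc0 : 0 < c := lt_min hc1 hc2
  intro Q θ n hQ hθ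
  obtain ⟨C1, D1, hC1, h1⟩ := h1 Q 16 n hQ (by norm_num)
  obtain ⟨C2, D2, hC2, h2⟩ := h2 Q n hQ
  set A : ℝ := 1 / θ with hA
  have hA0 : 0 < A := by positivity
  refine ⟨C1 * A ^ (1 + c) + C2 * A * (2 * A) ^ c, max D1 D2, by positivity, ?_⟩
  intro ι κ γ _ _ _ _ _ hn Γ hΓ d Cs h Tn Λ L iL iF χ Um Vm Dm x0 N D R R' FlT hmul hw hf1 hf2 hrk hz
    hR hθR hR'D hDD
  have hR0 : (0 : ℝ) < R := by exact_mod_cast hR
  have hD0 : (0 : ℝ) < D := lt_of_lt_of_le (by positivity) hθR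
  have hinv : ∀ {x : ℝ}, 0 ≤ x → x / D ≤ A * (x / R) := by
    intro x hx
    rw [hA, div_mul_div_comm, div_le_div_iff₀ hD0 (by positivity)]
    have := mul_le_mul_of_nonneg_left hθR hx
    linarith
  refine ⟨?_, ?_, ?_⟩
  · intro a ω hω e he hne
    exact hw.cr.DM_mac hmul hf1 hf2 (fun c hc => hw.sur c hc h le_rfl ω) hω he hne
  · intro a M hV s a0 hs1 hs2 ha haR hK
    have ha' : (2 : ℝ) ≤ a0 := by exact_mod_cast ha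
    have hM : 0 ≤ M := (norm_nonneg _).trans (hV ∅ (empty_subset _) ∅ (empty_subset _))
    obtain ⟨σ, g1, g2, g3, g4⟩ := wt_maxW (K0 := K1) (by linarith) hs1 ha
      (fun i => (le_max_left _ _).trans (hK i))
    have h0 := h1 hn Γ hΓ d.X d.W d.Bb d.B d.TT Cs d.fm d.co d.Wl d.La d.b d.o h Tn Λ L iL iF χ Um Vm
      Dm d.wl d.fw d.ε x0 N D d.rk a (fun e => s (d.wl e)) σ M a0 hmul hw hf1 hf2 hrk
      (fun e _ => g1 _) (fun e _ => hs2 _) g2 g3 hV ha g4 (by omega) ((le_max_left _ _).trans hDD)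
    have h0' : ‖d.tot Cs a s - d.tot0 Cs a - d.fst Cs a s‖ ≤ C1 * M * ((a0 : ℝ) / D) ^ (1 + c1) := h0
    refine h0'.trans ?_
    have haD : (a0 : ℝ) / D ≤ 1 := by
      rw [div_le_one hD0]
      exact_mod_cast (by omega : a0 ≤ D)
    have haD0 : 0 < (a0 : ℝ) / D := div_pos (by linarith) hD0
    have g5 : ((a0 : ℝ) / D) ^ (1 + c1) ≤ ((a0 : ℝ) / D) ^ (1 + c) :=
      Real.rpow_le_rpow_of_exponent_ge haD0 haD (by have := min_le_left c1 c2; linarith)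
    have g6 : ((a0 : ℝ) / D) ^ (1 + c) ≤ (A * (a0 / R)) ^ (1 + c) :=
      Real.rpow_le_rpow haD0.le (hinv (by linarith)) (by linarith)
    rw [Real.mul_rpow hA0.le (by positivity)] at g6
    have g7 : 0 ≤ C2 * A * (2 * A) ^ c := by positivity
    have g8 : 0 ≤ ((a0 : ℝ) / R) ^ (1 + c) := by positivity
    calc C1 * M * ((a0 : ℝ) / D) ^ (1 + c1) ≤ C1 * M * (A ^ (1 + c) * (a0 / R) ^ (1 + c)) :=
          mul_le_mul_of_nonneg_left (g5.trans g6) (by positivity)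
      _ = C1 * A ^ (1 + c) * M * (a0 / R) ^ (1 + c) := by ring
      _ ≤ _ := by
        refine mul_le_mul_of_nonneg_right ?_ g8
        exact mul_le_mul_of_nonneg_right (by linarith) hM
  · intro w σ a0 hσ1 hσ2 ha haR hK
    have ha' : (2 : ℝ) ≤ a0 := by exact_mod_cast ha
    have hR'0 : (0 : ℝ) < R' := by exact_mod_cast (by omega : 0 < R')
    refine (h2 hn d.B d.TT d.fm d.co d.La d.b d.wl d.fw d.ε x0 N D d.rk σ a0 (2 * R') w (FlT w) 1 0 0 h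
      hw.wd (Or.inl rfl) hw.D16 hrk (hz w) hσ1 hσ2 ha ((le_max_right _ _).trans hK) (by omega) (by omega)
      ((le_max_right _ _).trans hDD)).trans ?_
    have g1 : (a0 : ℝ) / D ≤ A * (a0 / R) := hinv (by linarith)
    have hρ1 : (((2 * R' : ℤ) : ℝ)) / D ≤ 1 := by
      rw [div_le_one hD0]
      exact_mod_cast (by omega : 2 * R' ≤ D)
    have hρ0 : 0 < (((2 * R' : ℤ) : ℝ)) / D := by
      push_cast
      positivity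
    have g2 : (((2 * R' : ℤ) : ℝ) / D) ^ c2 ≤ (((2 * R' : ℤ) : ℝ) / D) ^ c :=
      Real.rpow_le_rpow_of_exponent_ge hρ0 hρ1 (min_le_right c1 c2)
    have g3 : ((2 * R' : ℤ) : ℝ) / D ≤ 2 * A * (R' / R) := by
      push_cast
      have g4 := hinv (x := 2 * (R' : ℝ)) (by linarith)
      calc 2 * (R' : ℝ) / D ≤ A * (2 * R' / R) := g4
        _ = _ := by ring
    have g5 : (((2 * R' : ℤ) : ℝ) / D) ^ c ≤ (2 * A) ^ c * ((R' : ℝ) / R) ^ c := by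
      rw [← Real.mul_rpow (by positivity) (by positivity)]
      exact Real.rpow_le_rpow hρ0.le g3 hc0.le
    have g6 : 0 ≤ (2 * A) ^ c * ((R' : ℝ) / R) ^ c := by positivity
    calc C2 * ((a0 : ℝ) / D) * (((2 * R' : ℤ) : ℝ) / D) ^ c2 ≤
          C2 * (A * (a0 / R)) * ((2 * A) ^ c * ((R' : ℝ) / R) ^ c) := by
          refine mul_le_mul (mul_le_mul_of_nonneg_left g1 hC2.le) (g2.trans g5) (by positivity)
            (by positivity)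
      _ = C2 * A * (2 * A) ^ c * (a0 / R) * (R' / R) ^ c := by ring
      _ ≤ _ := by
        have g7 : 0 ≤ C1 * A ^ (1 + c) := by positivity
        have g8 : (0 : ℝ) ≤ (a0 : ℝ) / R := by positivity
        refine mul_le_mul_of_nonneg_right (mul_le_mul_of_nonneg_right (by linarith) g8)
          (by positivity)

end Pool.Agent.H59.W
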