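import Mathlib
import Pool.Agent.H59.W.ViewW

set_option autoImplicit false
open Finset

/-!
# Windows: separation of the walls

`sepV_of` : `SepV` for two walls, from the distance of their interior points in the plane.
-/

namespace Pool.Agent.H59.W

open Pool.Agent.H75.Perc Pool.Agent.H75.TwoArm Pool.Agent.H75.Four Pool.Agent.H69.Q1
open Pool.Agent.Q1 Pool.Agent.H99.NC Pool.Agent.H49.Perc Pool.Agent.H60.Q1
open Pool.Agent.H39.Q1 Pool.Agent.H59.Q1 Pool.Agent.Q1.M6e Pool.Agent.H39.R45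
open Pool.Agent.H20.Q1 (Eh CS hf)

variable {ι : Type*} [DecidableEq ι]

/-- the point of the plane (label coordinates) of a node of the colour `c` -/
def np (c : Bool) (v : ℤ × ℤ) : ℤ × ℤ := (2 * v.1 - (tc c).1, 2 * v.2 - (tc c).2)

/-- sup distance at most `r` -/
def Nr (r : ℤ) (x y : ℤ × ℤ) : Prop := |x.1 - y.1| ≤ r ∧ |x.2 - y.2| ≤ r

lemma Nr.symm {r : ℤ} {x y : ℤ × ℤ} (h : Nr r x y) : Nr r y x := by
  unfold Nr at *
  rw [abs_sub_comm, abs_sub_comm y.2]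
  exact h

lemma Nr.trans {r s : ℤ} {x y z : ℤ × ℤ} (h : Nr r x y) (h' : Nr s y z) : Nr (r + s) x z := by
  unfold Nr at *
  simp only [abs_le] at *
  omega

lemma gm_one {ε : Bool × Bool} (v : ℤ × ℤ) : ((gm ε v).1 = v.1 ∨ (gm ε v).1 = -v.1) ∧
    ((gm ε v).2 = v.2 ∨ (gm ε v).2 = -v.2) := by
  unfold gm
  rcases sgb_cases ε.1 with h2 | h2 <;> rcases sgb_cases ε.2 with h3 | h3 <;> rw [h2, h3] <;>
    simp only <;> omega

variable {B TT Ω ω P k T T' FlT : Finset (ℤ × ℤ)} {fm : ℤ × ℤ → ι} {co : ι → Bool}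
  {La : ι → Finset (ℤ × ℤ)} {b : ℤ × ℤ → ℤ × ℤ} {e e' l : ℤ × ℤ} {i j : ι} {ε ε' : Bool × Bool}
  {x0 x1 : ℤ × ℤ} {N N' R h r : ℤ} {σ : ℝ}

/-- the original of an element of a box of the view is near the original of the centre -/
lemma FWw.near (hF : FWw TT fm b (La i) i ε T x0 N)
    (hlab : ∀ e ∈ TT, Nr 1 e (np (co (fm e)) (b e))) (v : ℤ × ℤ)
    (hl : l ∈ H59.Q1.EV (Lx co La i ε) (VI TT fm b i ε)) (hb : l ∈ Fb v r) :
    Nr (2 * r + 1) (vpi TT fm co b i ε l) (np (co i) (gm ε v)) := by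
  unfold Fb at hb
  rw [mem_product, mem_Icc, mem_Icc] at hb
  obtain ⟨⟨h1, h2⟩, h3, h4⟩ := hb
  rcases hF.cases hl with ⟨g1, g2⟩ | ⟨e, he, rfl⟩
  · rw [vpi_odd g1]
    have key : Nr (2 * r) (gm ε l - tc (co i)) (np (co i) (gm ε v)) := by
      unfold Nr np gm
      simp only [Prod.fst_sub, Prod.snd_sub]
      rcases sgb_cases ε.1 with h5 | h5 <;> rcases sgb_cases ε.2 with h6 | h6 <;> rw [h5, h6] <;>
        simp only [abs_le] <;> omega
    have := key.trans (s := 1) (z := np (co i) (gm ε v)) (by unfold Nr; simp)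
    exact this
  · rw [hF.vpi_tie he]
    have h5 := hlab e (mem_TF.1 he).1
    rw [(mem_TF.1 he).2] at h5
    have key : Nr (2 * r) (np (co i) (b e)) (np (co i) (gm ε v)) := by
      have g := gm_gm (ε := ε) (b e)
      set w := gm ε (b e) with hw
      rw [← g]
      unfold Nr np gm
      simp only [Prod.fst_add, Prod.snd_add] at h1 h2 h3 h4
      rcases sgb_cases ε.1 with h5 | h5 <;> rcases sgb_cases ε.2 with h6 | h6 <;> rw [h5, h6] <;>
        simp only [abs_le] <;> omega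
    have := h5.trans key
    rwa [show 1 + 2 * r = 2 * r + 1 by ring] at this

/-- elements of a box of radius `0` -/
lemma FWw.zero (hF : FWw TT fm b (La i) i ε T x0 N) (v : ℤ × ℤ)
    (hl : l ∈ H59.Q1.EV (Lx co La i ε) (VI TT fm b i ε)) (hb : l ∈ Fb v 0) :
    ∃ e ∈ TF TT fm i, gm ε (b e) = v ∧ vpi TT fm co b i ε l = e := by
  unfold Fb at hb
  rw [mem_product, mem_Icc, mem_Icc] at hb
  obtain ⟨⟨h1, h2⟩, h3, h4⟩ := hb
  rcases hF.cases hl with ⟨g1, g2⟩ | ⟨e, he, rfl⟩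
  · omega
  · refine ⟨e, he, ?_, hF.vpi_tie he⟩
    simp only [Prod.fst_add, Prod.snd_add] at h1 h2 h3 h4
    exact Prod.ext (by omega) (by omega)

/-- **Separation of two walls** -/
theorem sepV_of (hF : FWw TT fm b (La i) i ε T x0 N) (hF' : FWw TT fm b (La j) j ε' T' x1 N')
    (hlab : ∀ e ∈ TT, Nr 1 e (np (co (fm e)) (b e)))
    (hne : i = j → ∀ t t', 1 ≤ t → t + 1 ≤ N → 1 ≤ t' → t' + 1 ≤ N' →
      gm ε (wp 1 x0 t) ≠ gm ε' (wp 1 x1 t'))
    (hfar : ∀ ρ : ℤ, 32 ≤ ρ → ∀ t t', ρ ≤ t → t + ρ ≤ N → ρ ≤ t' → t' + ρ ≤ N' →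
      ¬ Nr (ρ / 4) (np (co i) (gm ε (wp 1 x0 t))) (np (co j) (gm ε' (wp 1 x1 t')))) :
    SepV (Lx co La i ε) (VI TT fm b i ε) x0 N (vpi TT fm co b i ε) (Lx co La j ε') (VI TT fm b j ε')
      x1 N' (vpi TT fm co b j ε') := by
  intro ρ hρ t t' h1 h2 h3 h4
  rw [disjoint_left]
  intro z hz hz'
  obtain ⟨l, hl, rfl⟩ := mem_image.1 hz
  obtain ⟨l', hl', he⟩ := mem_image.1 hz'
  rw [mem_inter] at hl hl'
  by_cases hr : 32 ≤ ρ
  · have g1 := hF.near hlab _ hl.1 hl.2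
    have g2 := hF'.near hlab _ hl'.1 hl'.2
    rw [he] at g2
    have g3 := g1.symm.trans g2
    refine hfar ρ hr t t' h1 h2 h3 h4 ⟨g3.1.trans ?_, g3.2.trans ?_⟩ <;> omega
  · have e0 : ρ / 32 = 0 := by omega
    rw [e0] at hl hl'
    obtain ⟨e, he1, he2, he3⟩ := hF.zero _ hl.1 hl.2
    obtain ⟨e', he1', he2', he3'⟩ := hF'.zero _ hl'.1 hl'.2
    rw [he3, he3'] at he
    subst he
    have hij : i = j := (mem_TF.1 he1).2.symm.trans (mem_TF.1 he1').2
    refine hne hij t t' (by omega) (by omega) (by omega) (by omega) ?_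
    rw [← he2, ← he2', gm_gm, gm_gm]

/-- the grid point (tile coordinates) of a node of the colour `c` -/
def tcn (c : Bool) (v : ℤ × ℤ) : ℤ × ℤ := (v.1 + v.2 - (tc c).1, v.2 - v.1)

lemma tc_eq (c : Bool) : (tc c).1 = (tc c).2 := by unfold tc; split_ifs <;> rfl

lemma tcn_of_Nr {c c' : Bool} {v v' : ℤ × ℤ} (h : Nr r (np c v) (np c' v')) :
    |(tcn c v).1 - (tcn c' v').1| ≤ r ∧ |(tcn c v).2 - (tcn c' v').2| ≤ r := by
  have h1 := tc_eq c
  have h2 := tc_eq c'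
  unfold Nr np at h
  unfold tcn
  simp only [abs_le] at *
  omega

lemma tcn_inj {c : Bool} {v v' : ℤ × ℤ} (h : tcn c v = tcn c v') : v = v' := by
  unfold tcn at h
  simp only [Prod.mk.injEq] at h
  exact Prod.ext (by omega) (by omega)

/-- the grid point `g` is on the unit edge at `(X, Y)` of the lattice of mesh `n` with the origin `z`, at
distance at least `r` from its ends -/
def OnEd (n : ℤ) (z : ℤ × ℤ) : Bool → ℤ → ℤ → ℤ → ℤ × ℤ → Prop
  | true, X, Y, r, g => g.1 = z.1 + n * X ∧ z.2 + n * Y + r ≤ g.2 ∧ g.2 + r ≤ z.2 + n * Y + n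
  | false, X, Y, r, g => g.2 = z.2 + n * Y ∧ z.1 + n * X + r ≤ g.1 ∧ g.1 + r ≤ z.1 + n * X + n

lemma mul_cases {n : ℤ} (hn : 0 ≤ n) (X X' : ℤ) : X = X' ∨ n * X + n ≤ n * X' ∨ n * X' + n ≤ n * X := by
  rcases lt_trichotomy X X' with h | h | h
  · right; left
    have := mul_le_mul_of_nonneg_left (show X + 1 ≤ X' by omega) hn
    linarith
  · exact Or.inl h
  · right; right
    have := mul_le_mul_of_nonneg_left (show X' + 1 ≤ X by omega) hn
    linarith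

lemma onEd_sep {n X Y X' Y' : ℤ} {z g g' : ℤ × ℤ} {v v' : Bool} (hr : 1 ≤ r) (h : OnEd n z v X Y r g)
    (h' : OnEd n z v' X' Y' r g') (hne : ¬ (v = v' ∧ X = X' ∧ Y = Y'))
    (h1 : |g.1 - g'.1| < r) (h2 : |g.2 - g'.2| < r) : False := by
  rw [abs_lt] at h1 h2
  cases v <;> cases v'
  · obtain ⟨a1, a2, a3⟩ := h
    obtain ⟨b1, b2, b3⟩ := h'
    rcases mul_cases (show 0 ≤ n by omega) X X' with c1 | c1 | c1 <;>
      rcases mul_cases (show 0 ≤ n by omega) Y Y' with c2 | c2 | c2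
    · exact hne ⟨rfl, c1, c2⟩
    all_goals omega
  · obtain ⟨a1, a2, a3⟩ := h
    obtain ⟨b1, b2, b3⟩ := h'
    rcases mul_cases (show 0 ≤ n by omega) X X' with c1 | c1 | c1
    · subst c1; omega
    all_goals omega
  · obtain ⟨a1, a2, a3⟩ := h
    obtain ⟨b1, b2, b3⟩ := h'
    rcases mul_cases (show 0 ≤ n by omega) X X' with c1 | c1 | c1
    · subst c1; omega
    all_goals omega
  · obtain ⟨a1, a2, a3⟩ := h
    obtain ⟨b1, b2, b3⟩ := h'
    rcases mul_cases (show 0 ≤ n by omega) X X' with c1 | c1 | c1 <;>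
      rcases mul_cases (show 0 ≤ n by omega) Y Y' with c2 | c2 | c2
    · exact hne ⟨rfl, c1, c2⟩
    all_goals omega

/-- **Separation of the walls of two different unit edges** -/
theorem sepV_ed (hF : FWw TT fm b (La i) i ε T x0 N) (hF' : FWw TT fm b (La j) j ε' T' x1 N')
    (hlab : ∀ e ∈ TT, Nr 1 e (np (co (fm e)) (b e))) {n X Y X' Y' : ℤ} {z : ℤ × ℤ} {v v' : Bool}
    (hE : ∀ t r, 0 ≤ r → r ≤ t → t + r ≤ N → OnEd n z v X Y (2 * r) (tcn (co i) (gm ε (wp 1 x0 t))))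
    (hE' : ∀ t r, 0 ≤ r → r ≤ t → t + r ≤ N' →
      OnEd n z v' X' Y' (2 * r) (tcn (co j) (gm ε' (wp 1 x1 t))))
    (hne : ¬ (v = v' ∧ X = X' ∧ Y = Y')) :
    SepV (Lx co La i ε) (VI TT fm b i ε) x0 N (vpi TT fm co b i ε) (Lx co La j ε') (VI TT fm b j ε')
      x1 N' (vpi TT fm co b j ε') := by
  refine sepV_of hF hF' hlab ?_ ?_
  · intro hij t t' h1 h2 h3 h4 he
    have g1 := hE t 1 (by omega) h1 h2
    have g2 := hE' t' 1 (by omega) h3 h4
    rw [he, hij] at g1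
    exact onEd_sep (by norm_num) g1 g2 hne (by simp) (by simp)
  · intro ρ hρ t t' h1 h2 h3 h4 hN
    have g1 := hE t ρ (by omega) h1 h2
    have g2 := hE' t' ρ (by omega) h3 h4
    obtain ⟨g3, g4⟩ := tcn_of_Nr hN
    exact onEd_sep (by omega) g1 g2 hne (by omega) (by omega)

end Pool.Agent.H59.W
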