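import Mathlib
import Pool.Agent.H59.W.FineW

set_option autoImplicit false
open Finset

/-!
# Windows: the criterion for `FineP`

`Inp` : the inputs for one case (walls, marked corners, flat ties). `fineP_of` : a class of cases with inputs
satisfies `FineP`.
-/

namespace Pool.Agent.H59.W

open Pool.Agent.H75.Perc Pool.Agent.H75.TwoArm Pool.Agent.H75.Four Pool.Agent.H69.Q1
open Pool.Agent.Q1 Pool.Agent.H99.NC Pool.Agent.H49.Perc Pool.Agent.H60.Q1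
open Pool.Agent.H39.Q1 Pool.Agent.H59.Q1 Pool.Agent.Q1.M6e Pool.Agent.H39.R45 Pool.Agent.H25.Q1.Add
open Pool.Agent.H20.Q1 (Eh CS hf)
open Pool.Agent.H44.FM.AsmW (Walls TW mem_TW)
open Pool.Agent.H40.Sp (Cht CrW ErW)
open Pool.Agent.Q1.M6e.Wn

/-- **The inputs for one case**: `θ R ≤ D` the length of the walls, `Q` the constant of the corners, `n` the
number of walls and marked corners, `C R` the number of ties of a wall, `R' ≤ ζ R` the radii. -/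
structure Inp (θ Q ζ C : ℝ) (n R1 R : ℕ) (x : CaseW) where
  γ : Type
  dγ : DecidableEq γ
  Γ : Finset γ
  h : ℤ
  Tn : γ → Finset (ℤ × ℤ)
  Λ : γ → x.ι → Finset (ℤ × ℤ)
  L : γ → Finset (ℤ × ℤ)
  iL : γ → x.ι
  iF : γ → x.ι
  χ : γ → Cht
  Um : γ → ℤ
  Vm : γ → ℤ
  Dm : γ → ℤ
  x0 : x.κ → ℤ × ℤ
  N : x.κ → ℤ
  D : ℤ
  ne : Nonempty x.κ
  card : Fintype.card x.κ ≤ n
  cardΓ : Γ.card ≤ n
  mul : Multi x.d.X x.d.W x.d.Bb x.d.B x.d.TT x.d.fm x.d.co x.d.Wl x.d.La x.d.b x.d.o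
  wcr : WCr x.d.W x.d.Bb x.d.B x.d.TT x.d.fm x.d.co x.d.Wl x.d.La x.d.b x.d.o h Γ Tn Λ L iL iF χ Um Vm
    Dm x.d.wl x.d.fw x.d.ε x0 N D Q
  far : ∀ c ∈ x.Cs, FarM x.d.X x.d.TT x.d.fm x.d.co x.d.Wl x.d.La x.d.b x.d.o c
  farΛ : ∀ g ∈ Γ, ∀ c ∈ x.Cs, FarM x.d.X x.d.TT x.d.fm x.d.co x.d.Wl (Λ g) x.d.b x.d.o c
  rk : ∀ e ∈ x.d.TT, ∀ e' ∈ x.d.TT, x.d.rk e = x.d.rk e' → e = e'
  len : θ * R ≤ D
  flt : ∀ R' : ℤ, R1 ≤ R' → (R' : ℝ) ≤ ζ * R → ∃ FlT : x.κ → Finset (ℤ × ℤ),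
    Walls x.d.X x.d.W x.d.Bb x.d.TT x.Cs x.d.fm x.d.co x.d.Wl x.d.La x.d.b x.d.o x.d.rk x.d.wl x.d.fw
      x.d.ε x.d.δ FlT R' ∧
    (∀ w, ((FlT w).card : ℝ) ≤ C * R) ∧
    (∀ w, ∀ e ∈ TW x.d.TT x.d.wl w, e ∉ FlT w →
      inR (wp 1 (x0 w) 0) (2 * R') (gm (x.d.ε w) (x.d.b e)) ∨
      inR (wp 1 (x0 w) (N w)) (2 * R') (gm (x.d.ε w) (x.d.b e)))

/-- **A class of cases with inputs satisfies `FineP`.** -/
theorem fineP_of {P : ℝ → ℕ → CaseW → Prop}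
    (H : ∀ η : ℝ, 0 < η → ∃ (θ Q ζ C : ℝ) (n R1 : ℕ), 0 < θ ∧ 0 < ζ ∧ ∀ R : ℕ, R1 ≤ R →
      ∀ x : CaseW, P η R x → Nonempty (Inp θ Q ζ C n R1 R x)) : FineP P := by
  intro η hη
  obtain ⟨K, c, hK, hc, hfw⟩ := fine_win
  obtain ⟨θ, Q, ζ, C, n, R1, hθ, hζ, H⟩ := H η hη
  obtain ⟨C', D0, hC', hfw⟩ := hfw (max Q 1) θ n (le_max_right _ _) hθ
  refine ⟨n, max C C', c, K, min ζ (θ / 32), max (max R1 1) ⌈(|(D0 : ℝ)|) / θ⌉₊,
    lt_max_of_lt_right hC', hc, hK, lt_min hζ (by positivity), ?_⟩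
  intro R hR x hx
  have hR1 : R1 ≤ R := (le_max_left _ _).trans ((le_max_left _ _).trans hR)
  have hR2 : 1 ≤ R := (le_max_right _ _).trans ((le_max_left _ _).trans hR)
  have hR3 : (|(D0 : ℝ)|) / θ ≤ R := (Nat.le_ceil _).trans (by exact_mod_cast (le_max_right _ _).trans hR)
  obtain ⟨I⟩ := H R hR1 x hx
  have hRr : (0 : ℝ) < R := by exact_mod_cast hR2
  let _ := I.dγ
  have := I.ne
  refine ⟨I.card, fun R' h1 h2 => ?_⟩
  have hR'1 : (R1 : ℤ) ≤ R' := by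
    refine le_trans ?_ h1
    exact_mod_cast (le_max_left R1 1).trans (le_max_left _ _)
  have hR'2 : (R' : ℝ) ≤ ζ * R := h2.trans (mul_le_mul_of_nonneg_right (min_le_left _ _) hRr.le)
  have hR'3 : (R' : ℝ) ≤ θ / 32 * R := h2.trans (mul_le_mul_of_nonneg_right (min_le_right _ _) hRr.le)
  obtain ⟨FlT, hW, hcard, hz⟩ := I.flt R' hR'1 hR'2
  have hw := I.wcr
  have hlen := I.len
  have hD0 : (0 : ℝ) ≤ I.D := le_trans (by positivity) hlen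
  have hwd : WD x.d.B x.d.TT x.d.fm x.d.co x.d.La x.d.b x.d.wl x.d.fw x.d.ε I.x0 I.N I.D (max Q 1) :=
    { dBT := hw.wd.dBT
      laB := hw.wd.laB
      fww := hw.wd.fww
      we := hw.wd.we
      sep := hw.wd.sep
      len := fun w => (hw.wd.len w).trans (mul_le_mul_of_nonneg_right (le_max_left _ _) hD0) }
  have hR'D : 32 * R' ≤ I.D := by
    have : (32 : ℝ) * R' ≤ I.D := by linarith
    exact_mod_cast this
  have hDD : D0 ≤ I.D := by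
    have g1 : |(D0 : ℝ)| ≤ R * θ := by rwa [div_le_iff₀ hθ] at hR3
    have : (D0 : ℝ) ≤ I.D := (le_abs_self _).trans (g1.trans (by linarith))
    exact_mod_cast this
  obtain ⟨f1, f2, f3⟩ := hfw (ι := x.ι) (κ := x.κ) (γ := I.γ) I.card I.Γ I.cardΓ x.d x.Cs I.h I.Tn I.Λ I.L
    I.iL I.iF I.χ I.Um I.Vm I.Dm I.x0 I.N I.D R R' FlT I.mul
    ⟨hwd, hw.cr, hw.sur, hw.lnk, hw.D16⟩ I.far I.farΛ I.rk hz hR2 hlen hR'D hDD
  refine ⟨FlT, MC x.d.TT x.d.fm x.d.co x.d.La x.d.b 1 0 0 I.h, ?_⟩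
  exact
    { mul := I.mul
      far := I.far
      wal := hW
      card := fun w => (hcard w).trans (mul_le_mul_of_nonneg_right (le_max_left _ _) hRr.le)
      irr := f1
      fst := by
        intro a M hM s a0 g1 g2 g3 g4 g5
        refine (f2 a M hM s a0 g1 g2 g3 g4 g5).trans ?_
        have ha0 : (0 : ℝ) < a0 := by exact_mod_cast (by omega : (0 : ℤ) < a0)
        refine mul_le_mul_of_nonneg_right (mul_le_mul_of_nonneg_right (le_max_right _ _) hM.nonneg) ?_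
        positivity
      crn := by
        intro w σ a0 g1 g2 g3 g4 g5
        refine (f3 w σ a0 g1 g2 g3 g4 g5).trans ?_
        have ha0 : (0 : ℝ) < a0 := by exact_mod_cast (by omega : (0 : ℤ) < a0)
        have hR'0 : (0 : ℝ) < R' := by exact_mod_cast (by omega : (0 : ℤ) < R')
        refine mul_le_mul_of_nonneg_right (mul_le_mul_of_nonneg_right (le_max_right _ _) ?_) ?_
        · positivity
        · positivity }

end Pool.Agent.H59.W
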