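import Mathlib
import Pool.Agent.H31.Sp.Dat
import Pool.Agent.H59.W.SepW

set_option autoImplicit false
open Finset

/-!
# Windows: the ties of a wall

`EdgA` : every layer tile lies on a unit edge and has the arc of this edge. `fww_D` : the ties of a wall are the
points `wp 1 x0 t`, `0 ≤ t ≤ N`. `sep_D` : separation of the walls. `end_D` : ties which are not flat are near
an end of their wall.
-/

namespace Pool.Agent.H59.W

open Pool.Agent.H75.Perc Pool.Agent.H75.TwoArm Pool.Agent.H75.Four Pool.Agent.H69.Q1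
open Pool.Agent.Q1 Pool.Agent.H99.NC Pool.Agent.H49.Perc Pool.Agent.H60.Q1
open Pool.Agent.H39.Q1 Pool.Agent.H59.Q1 Pool.Agent.Q1.M6e Pool.Agent.H39.R45
open Pool.Agent.H33.Q1 (lt tt tt_lt)
open Pool.Agent.H46.Sp (Win)
open Pool.Agent.H74.Win (InP sh sh_nonneg sh_le OutB natc odd_TB)
open Pool.Agent.H42.Sp (Sd kt)
open Pool.Agent.H13.Sp
open Pool.Agent.H13.R45 (gp ev_true ev_false)
open Pool.Agent.H54.Sp (eS dS)
open Pool.Agent.H44.FM.AsmW (TW mem_TW)
open Pool.Agent.H31.Sp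

variable {D : Win} {n H : ℤ} {A B : ℤ → ℤ} {p : Bool} {s0 u v x y : ℤ} {s : Sd} {c : Bool}
  {w w' w0 : Kp H A B} {g : ℤ × ℤ}

/-! ### Layer tiles at a grid point -/

/-- the upper layer tile at the grid point `g` of a wall of the kind `s` -/
def tu : Sd → ℤ × ℤ → ℤ × ℤ
  | .L, g => (g.1 - 1, g.2)
  | .R, g => (g.1, g.2)
  | .F, g => (g.1, g.2 - 1)
  | .C, g => (g.1, g.2)

/-- the lower layer tile -/
def td : Sd → ℤ × ℤ → ℤ × ℤ
  | .L, g => (g.1 - 1, g.2 - 1)
  | .R, g => (g.1, g.2 - 1)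
  | .F, g => (g.1 - 1, g.2 - 1)
  | .C, g => (g.1 - 1, g.2)

/-- position of a grid point -/
def ps' (s : Sd) (g : ℤ × ℤ) : ℤ := if verS s = true then g.2 else g.1

/-- the kept tile at an inner end -/
def kb : Sd → Bool → ℤ × ℤ → ℤ × ℤ
  | .L, true, g => (g.1 - 1, g.2)
  | .L, false, g => (g.1 - 1, g.2 - 1)
  | .R, true, g => (g.1, g.2 - 1)
  | .R, false, g => (g.1, g.2)
  | .F, true, g => (g.1, g.2 - 1)
  | .F, false, g => (g.1 - 1, g.2 - 1)
  | .C, true, g => (g.1 - 1, g.2)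
  | .C, false, g => (g.1, g.2)

lemma kb_bt (s : Sd) (c : Bool) (t : ℤ × ℤ) : kb s c (bt s c t) = t := by
  cases s <;> cases c <;> (unfold kb bt; simp)

lemma bt_kb (s : Sd) (c : Bool) (g : ℤ × ℤ) : bt s c (kb s c g) = g := by
  cases s <;> cases c <;> (unfold kb bt; simp)

/-- both layer tiles at the inner end of a tie -/
lemma tie_pair (h : TieP D p s c u v) :
    LyA D p s (td s (bt s c (u, v))).1 (td s (bt s c (u, v))).2 ∧
      LyA D p s (tu s (bt s c (u, v))).1 (tu s (bt s c (u, v))).2 := by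
  obtain ⟨-, h1, -⟩ := h
  cases s <;> cases c <;> simp only [CA, gt] at h1 <;> obtain ⟨h2, h3, -⟩ := h1 <;>
    (unfold td tu bt; simp only [add_sub_cancel_right] at h2 h3 ⊢; exact ⟨h2, h3⟩)

/-- a tie at a grid point -/
lemma tie_of_pair (h1 : LyA D p s (td s g).1 (td s g).2) (h2 : LyA D p s (tu s g).1 (tu s g).2)
    (hg : H13.R45.ev g = c) (h3 : natc D p (td s g).1 (td s g).2 = c)
    (h4 : natc D p (tu s g).1 (tu s g).2 = c)
    (h5 : natc D p ((td s g).1 - (dr s).1) ((td s g).2 - (dr s).2) = c)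
    (h6 : natc D p ((tu s g).1 - (dr s).1) ((tu s g).2 - (dr s).2) = c) :
    TieP D p s c (kb s c g).1 (kb s c g).2 := by
  obtain ⟨gx, gy⟩ := g
  have hp : (gx + gy) % 2 = if c = true then 0 else 1 := by
    cases c
    · rw [ev_false] at hg; simp [hg]
    · rw [ev_true] at hg; simp [hg]
  cases s <;> cases c <;>
    simp only [td, tu, dr, kb, if_true, if_false, Bool.false_eq_true, sub_zero, sub_neg_eq_add] at * <;>
    refine ⟨by omega, ?_, ?_⟩ <;>
    simp only [gt, CA, Col4, sub_add_cancel, add_sub_cancel_right, iff_false, iff_true,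
      Bool.false_eq_true] <;>
    first
      | omega
      | (refine ⟨h1, h2, ?_, ?_, ?_, ?_⟩ <;>
          (simp only [h3, h4, h5, h6, iff_false, iff_true, Bool.false_eq_true]; omega))

/-! ### Edges -/

/-- **Every layer tile lies on a unit edge and has the arc of this edge.** -/
structure EdgA (D : Win) (n H : ℤ) (A B : ℤ → ℤ) (p : Bool) (s0 : ℤ) : Prop where
  hn : 8 ≤ n
  ed : ∀ s u v, LyA D p s u v → ∃ w : Kp H A B, w.1.1 = s ∧
    ∃ y, (bW n p w.1 ≤ y ∧ y < bW n p w.1 + n) ∧ tlW n p w.1 y = (u, v) ∧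
      arc D p s0 u v = fwD D n H A B s0 w ∧
      arc D p s0 (u - (dr s).1) (v - (dr s).2) = fwD D n H A B s0 w
  ad : ∀ w w' : Kp H A B, w.1.1 = w'.1.1 → lnW n p w.1 = lnW n p w'.1 →
    bW n p w'.1 = bW n p w.1 + n → fwD D n H A B s0 w = fwD D n H A B s0 w'

lemma tlW_tu (w : Sd × ℤ × ℤ) (y : ℤ) : tlW n p w y = tu w.1 (gW n p w y) ∧
    tlW n p w (y - 1) = td w.1 (gW n p w y) := by
  obtain ⟨s, X, Y⟩ := w
  cases s <;> (unfold tlW tu td gW verS; simp)

/-- an edge is determined by its kind, its line and its lower end -/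
lemma edge_ext (hn : 0 < n) {w w' : Sd × ℤ × ℤ} (h1 : w.1 = w'.1) (h2 : lnW n p w = lnW n p w')
    (h3 : bW n p w = bW n p w') : w = w' := by
  obtain ⟨s, X, Y⟩ := w
  obtain ⟨s', X', Y'⟩ := w'
  simp only at h1
  subst h1
  unfold lnW at h2
  unfold bW at h3
  simp only at h2 h3
  by_cases hv : verS s = true
  · rw [if_pos hv, if_pos hv] at h2 h3
    have e1 : X = X' := mul_left_cancel₀ hn.ne' h2
    have e2 : Y = Y' := mul_left_cancel₀ hn.ne' (by linarith)
    rw [e1, e2]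
  · rw [if_neg hv, if_neg hv] at h2 h3
    have e1 : X = X' := mul_left_cancel₀ hn.ne' h3
    have e2 : Y = Y' := mul_left_cancel₀ hn.ne' (by linarith)
    rw [e1, e2]

/-- the lower ends of two edges on one line differ by a multiple of `n` -/
lemma edge_step {w w' : Sd × ℤ × ℤ} (h1 : w.1 = w'.1) : ∃ k : ℤ, bW n p w' = bW n p w + n * k := by
  obtain ⟨s, X, Y⟩ := w
  obtain ⟨s', X', Y'⟩ := w'
  simp only at h1
  subst h1
  unfold bW
  simp only
  by_cases hv : verS s = true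
  · rw [if_pos hv, if_pos hv]
    exact ⟨Y' - Y, by ring⟩
  · rw [if_neg hv, if_neg hv]
    exact ⟨X' - X, by ring⟩

lemma tlW_inj {w w' : Sd × ℤ × ℤ} {y y' : ℤ} (h1 : w.1 = w'.1) (h : tlW n p w y = tlW n p w' y') :
    lnW n p w = lnW n p w' ∧ y = y' := by
  obtain ⟨s, X, Y⟩ := w
  obtain ⟨s', X', Y'⟩ := w'
  simp only at h1
  subst h1
  cases s <;> simp only [tlW, Prod.mk.injEq] at h <;> omega

/-- layer tiles of a wall have its arc -/
lemma EdgA.near (hE : EdgA D n H A B p s0) (w : Kp H A B) {y : ℤ} (h1 : bW n p w.1 - 1 ≤ y)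
    (h2 : y ≤ bW n p w.1 + n) (h : LyA D p w.1.1 (tlW n p w.1 y).1 (tlW n p w.1 y).2) :
    arc D p s0 (tlW n p w.1 y).1 (tlW n p w.1 y).2 = fwD D n H A B s0 w ∧
      arc D p s0 ((tlW n p w.1 y).1 - (dr w.1.1).1) ((tlW n p w.1 y).2 - (dr w.1.1).2) =
        fwD D n H A B s0 w := by
  have hn := hE.hn
  obtain ⟨w', e1, y', ⟨h3, h4⟩, h5, h6, h7⟩ := hE.ed _ _ _ h
  obtain ⟨h8, h9⟩ := tlW_inj e1 (h5.trans rfl)
  subst h9
  rw [h6, h7]
  obtain ⟨k, hk⟩ := edge_step (n := n) (p := p) (w := w.1) (w' := w'.1) e1.symm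
  have hk1 : k = 0 ∨ k = 1 ∨ k = -1 := by
    have g1 : n * (k - 1) ≤ 0 := by rw [mul_sub]; linarith
    have g2 : 0 < n * (k + 2) := by rw [mul_add]; linarith
    have g3 : k - 1 ≤ 0 := by
      by_contra hc
      have := mul_pos (show 0 < n by omega) (show 0 < k - 1 by omega)
      omega
    have g4 : 0 < k + 2 := (pos_iff_pos_of_mul_pos g2).1 (by omega)
    omega
  have key : fwD D n H A B s0 w' = fwD D n H A B s0 w := by
    rcases hk1 with rfl | rfl | rfl
    · have : w'.1 = w.1 := edge_ext (n := n) (p := p) (by omega) e1 h8 (by rw [hk]; ring)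
      rw [Subtype.ext this]
    · exact (hE.ad w w' e1.symm h8.symm (by rw [hk]; ring)).symm
    · exact hE.ad w' w e1 h8 (by rw [hk]; ring)
  exact ⟨key, key⟩

lemma gW_of_tu {w : Sd × ℤ × ℤ} {y : ℤ} (h : tlW n p w y = tu w.1 g) : y = ps' w.1 g ∧
    gW n p w y = g := by
  obtain ⟨s, X, Y⟩ := w
  obtain ⟨gx, gy⟩ := g
  cases s <;> simp only [tlW, tu, Prod.mk.injEq] at h <;>
    (unfold gW ps' verS; simp only [if_true, Bool.false_eq_true, if_false, Prod.mk.injEq]; omega)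

/-- the edge of a grid point -/
lemma ek_of {w : Sd × ℤ × ℤ} (hn : 0 < n) (h0 : gW n p w (ps' w.1 g) = g)
    (h1 : bW n p w ≤ ps' w.1 g) (h2 : ps' w.1 g < bW n p w + n) :
    (w.1, g.1 / n, (g.2 + sh p) / n) = w := by
  obtain ⟨s, X, Y⟩ := w
  obtain ⟨gx, gy⟩ := g
  have dv : ∀ {a b : ℤ}, n * b ≤ a → a < n * b + n → a / n = b := by
    intro a b h3 h4
    apply le_antisymm
    · apply Int.lt_add_one_iff.1
      rw [Int.ediv_lt_iff_lt_mul hn, add_mul]
      linarith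
    · rw [Int.le_ediv_iff_mul_le hn]
      linarith
  cases s <;> simp only [gW, bW, lnW, ps', verS, if_true, Bool.false_eq_true, if_false,
    Prod.mk.injEq, true_and] at h0 h1 h2 ⊢
  · rw [dv (a := gx) (b := X) (by omega) (by omega), dv (a := gy + sh p) (b := Y) (by omega) (by omega)]
    exact ⟨rfl, rfl⟩
  · rw [dv (a := gx) (b := X) (by omega) (by omega), dv (a := gy + sh p) (b := Y) (by omega) (by omega)]
    exact ⟨rfl, rfl⟩
  · rw [dv (a := gx) (b := X) (by omega) (by omega), dv (a := gy + sh p) (b := Y) (by omega) (by omega)]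
    exact ⟨rfl, rfl⟩
  · rw [dv (a := gx) (b := X) (by omega) (by omega), dv (a := gy + sh p) (b := Y) (by omega) (by omega)]
    exact ⟨rfl, rfl⟩

/-- **the edge of a tie** -/
lemma EdgA.tie (hE : EdgA D n H A B p s0) (h : TieP D p s c u v) : ∃ w : Kp H A B, w.1.1 = s ∧
    ek D n p (lt (u, v)) = w.1 ∧ (bW n p w.1 ≤ ps' s (bt s c (u, v)) ∧
      ps' s (bt s c (u, v)) < bW n p w.1 + n) ∧ gW n p w.1 (ps' s (bt s c (u, v))) = bt s c (u, v) ∧
      fmA D p s0 (lt (u, v)) = fwD D n H A B s0 w := by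
  have hn := hE.hn
  obtain ⟨h1, h2⟩ := tie_pair h
  obtain ⟨w, e1, y, h3, h4, h5, h6⟩ := hE.ed _ _ _ h2
  subst e1
  obtain ⟨g1, g2⟩ := gW_of_tu h4
  subst g1
  refine ⟨w, rfl, ?_, h3, g2, ?_⟩
  · rw [ek_tie h]
    exact ek_of (by omega) g2 h3.1 h3.2
  · rw [h.fm]
    have k1 := tlW_tu (n := n) (p := p) w.1 (ps' w.1.1 (bt w.1.1 c (u, v)))
    rw [g2] at k1
    have k2 := kb_bt w.1.1 c (u, v)
    have k3 : kb w.1.1 c (bt w.1.1 c (u, v)) = tu w.1.1 (bt w.1.1 c (u, v)) ∨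
        kb w.1.1 c (bt w.1.1 c (u, v)) = td w.1.1 (bt w.1.1 c (u, v)) := by
      generalize bt w.1.1 c (u, v) = g
      generalize w.1.1 = s
      cases s <;> cases c <;> simp [kb, tu, td]
    rw [k2] at k3
    rcases k3 with k3 | k3
    · rw [← k3] at h6
      exact h6
    · rw [← k3] at h1
      have := (hE.near w (y := ps' w.1.1 (bt w.1.1 c (u, v)) - 1) (by omega) (by omega) (by
        rw [k1.2, ← k3]; exact h1)).2
      rwa [k1.2, ← k3] at this

lemma EdgA.tie' (hE : EdgA D n H A B p s0) (w0 : Kp H A B) (h : TieP D p s c u v) :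
    (wlD D n H A B p w0 (lt (u, v))).1.1 = s ∧
    (bW n p (wlD D n H A B p w0 (lt (u, v))).1 ≤ ps' s (bt s c (u, v)) ∧
      ps' s (bt s c (u, v)) < bW n p (wlD D n H A B p w0 (lt (u, v))).1 + n) ∧
    gW n p (wlD D n H A B p w0 (lt (u, v))).1 (ps' s (bt s c (u, v))) = bt s c (u, v) ∧
      fmA D p s0 (lt (u, v)) = fwD D n H A B s0 (wlD D n H A B p w0 (lt (u, v))) := by
  obtain ⟨w, h1, h2, h3, h4, h5⟩ := hE.tie h
  rw [wlD_eq (w0 := w0) h2]
  exact ⟨h1, h3, h4, h5⟩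

/-- the arc of a tie is the arc of its wall -/
theorem EdgA.hfw (hE : EdgA D n H A B p s0) (w0 : Kp H A B) : ∀ e ∈ TA D p,
    fmA D p s0 e = fwD D n H A B s0 (wlD D n H A B p w0 e) := by
  intro e he
  obtain ⟨u, v, s, c, rfl, h⟩ := exists_tie he
  exact (hE.tie' w0 h).2.2.2

/-! ### Inner ends determine the ties -/

lemma gp_inj {g g' : ℤ × ℤ} (h : gp g = gp g') (he : H13.R45.ev g = H13.R45.ev g') : g = g' := by
  obtain ⟨a, b⟩ := g
  obtain ⟨a', b'⟩ := g'
  unfold gp at h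
  simp only [Prod.mk.injEq] at h
  unfold Pool.Agent.H13.R45.ev at he
  simp only [decide_eq_decide] at he
  refine Prod.ext ?_ ?_ <;> simp only <;> omega

lemma kind_eq {s' : Sd} (h1 : LyA D p s (td s g).1 (td s g).2) (h2 : LyA D p s (tu s g).1 (tu s g).2)
    (h3 : LyA D p s' (td s' g).1 (td s' g).2) (h4 : LyA D p s' (tu s' g).1 (tu s' g).2) : s = s' := by
  have a2 := h2.inn
  have a2' := h2.out
  have a4 := h4.inn
  have a4' := h4.out
  cases s <;> cases s' <;> simp only [tu, td, dr, sub_add_cancel, add_zero] at * <;> first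
    | rfl
    | exact h1.unique h3
    | exact h2.unique h3
    | exact h1.unique h4
    | exact h2.unique h4
    | exact absurd a2 a4'

/-- **an inner end determines the tie** -/
theorem bA_inj {i : ℤ} : ∀ e ∈ TF (TA D p) (fmA D p s0) i, ∀ e' ∈ TF (TA D p) (fmA D p s0) i,
    bA D p e = bA D p e' → e = e' := by
  intro e he e' he' hb
  obtain ⟨h1, h2⟩ := mem_TF.1 he
  obtain ⟨h1', h2'⟩ := mem_TF.1 he'
  obtain ⟨u, v, s, c, rfl, h⟩ := exists_tie h1
  obtain ⟨u', v', s', c', rfl, h'⟩ := exists_tie h1'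
  have hc : c = colp D i := by rw [← h2]; exact h.co.symm
  have hc' : c' = colp D i := by rw [← h2']; exact h'.co.symm
  subst hc
  subst hc'
  rw [h.b, h'.b] at hb
  have hg := gp_inj hb (by rw [ev_bt h.odd, ev_bt h'.odd])
  obtain ⟨k1, k2⟩ := tie_pair h
  obtain ⟨k3, k4⟩ := tie_pair h'
  rw [← hg] at k3 k4
  have hs := kind_eq k1 k2 k3 k4
  subst hs
  have := congrArg (kb s (colp D i)) hg
  rw [kb_bt, kb_bt] at this
  rw [this]

/-! ### The frames -/

lemma gm_gW {w : Sd × ℤ × ℤ} {y y0 t : ℤ}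
    (h : y = if posS w.1 = true then y0 - 2 * t else y0 + 2 * t) :
    gm (eS w.1) (gp (gW n p w y)) = wp 1 (gm (eS w.1) (gp (gW n p w y0))) t := by
  obtain ⟨s, X, Y⟩ := w
  generalize hln : lnW n p (s, X, Y) = l at *
  cases s <;> simp only [posS, if_true, Bool.false_eq_true, if_false] at h <;>
    (unfold gW verS gm eS gp sgb wp
     simp only [if_true, Bool.false_eq_true, if_false, hln]
     refine Prod.ext ?_ ?_ <;> simp only <;> omega)

/-! ### The wall -/

/-- colour of a wall -/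
noncomputable def cD (D : Win) (n H : ℤ) (A B : ℤ → ℤ) (s0 : ℤ) (w : Kp H A B) : Bool :=
  colp D (fwD D n H A B s0 w)

/-- first position of a wall in its frame -/
noncomputable def y0D (D : Win) (n H : ℤ) (A B : ℤ → ℤ) (p : Bool) (s0 : ℤ) (w : Kp H A B) : ℤ :=
  if posS w.1.1 = true then hiD D n p (cD D n H A B s0 w) w.1 else loD D n p (cD D n H A B s0 w) w.1

/-- position of the tied vertex number `t` -/
noncomputable def yD (D : Win) (n H : ℤ) (A B : ℤ → ℤ) (p : Bool) (s0 : ℤ) (w : Kp H A B) (t : ℤ) : ℤ :=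
  if posS w.1.1 = true then y0D D n H A B p s0 w - 2 * t else y0D D n H A B p s0 w + 2 * t

lemma x0D_eq : x0D D n H A B p s0 w = gm (eS w.1.1) (gp (gW n p w.1 (y0D D n H A B p s0 w))) := rfl

/-- the tied vertices of a wall -/
lemma wp_x0D (t : ℤ) : wp 1 (x0D D n H A B p s0 w) t =
    gm (eS w.1.1) (gp (gW n p w.1 (yD D n H A B p s0 w t))) :=
  (gm_gW rfl).symm

lemma lo_facts : (qW D n p w.1).1 ≤ loD D n p c w.1 ∧ loD D n p c w.1 ≤ (qW D n p w.1).1 + 1 ∧
    (loD D n p c w.1 + lnW n p w.1) % 2 = (if c = true then 0 else 1) := by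
  unfold loD
  cases c <;> simp only [if_true, Bool.false_eq_true, if_false] <;> omega

lemma hi_facts : hiD D n p c w.1 ≤ (qW D n p w.1).2 ∧ (qW D n p w.1).2 ≤ hiD D n p c w.1 + 1 ∧
    (hiD D n p c w.1 + lnW n p w.1) % 2 = (if c = true then 0 else 1) := by
  unfold hiD
  cases c <;> simp only [if_true, Bool.false_eq_true, if_false] <;> omega

/-- positions of a wall -/
lemma yD_facts (_hn : 8 ≤ n) (hq : HtW D n p w.1 (qW D n p w.1).1 (qW D n p w.1).2) {t : ℤ}
    (h0 : 0 ≤ t) (h1 : t ≤ ND D n H A B p s0 w) :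
    (qW D n p w.1).1 ≤ yD D n H A B p s0 w t ∧ yD D n H A B p s0 w t ≤ (qW D n p w.1).2 ∧
    (yD D n H A B p s0 w t + lnW n p w.1) % 2 = (if cD D n H A B s0 w = true then 0 else 1) := by
  have k1 := lo_facts (D := D) (n := n) (p := p) (w := w) (c := cD D n H A B s0 w)
  have k2 := hi_facts (D := D) (n := n) (p := p) (w := w) (c := cD D n H A B s0 w)
  have k3 := hq.lo1
  have k4 := hq.hi0
  unfold ND at h1
  change t ≤ (hiD D n p (cD D n H A B s0 w) w.1 - loD D n p (cD D n H A B s0 w) w.1) / 2 at h1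
  unfold yD y0D
  split_ifs <;> split_ifs at k1 k2 <;> omega

/-- positions and numbers -/
lemma exists_t (hn : 8 ≤ n) (hq : HtW D n p w.1 (qW D n p w.1).1 (qW D n p w.1).2) {y : ℤ}
    (h0 : (qW D n p w.1).1 ≤ y) (h1 : y ≤ (qW D n p w.1).2)
    (h2 : (y + lnW n p w.1) % 2 = (if cD D n H A B s0 w = true then 0 else 1)) :
    ∃ t, (0 ≤ t ∧ t ≤ ND D n H A B p s0 w) ∧ y = yD D n H A B p s0 w t := by
  have k1 := lo_facts (D := D) (n := n) (p := p) (w := w) (c := cD D n H A B s0 w)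
  have k2 := hi_facts (D := D) (n := n) (p := p) (w := w) (c := cD D n H A B s0 w)
  unfold ND
  change ∃ t, (0 ≤ t ∧ t ≤ (hiD D n p (cD D n H A B s0 w) w.1 -
    loD D n p (cD D n H A B s0 w) w.1) / 2) ∧ _
  unfold yD y0D
  by_cases hp : posS w.1.1 = true
  · simp only [if_pos hp]
    refine ⟨(hiD D n p (cD D n H A B s0 w) w.1 - y) / 2, ?_, ?_⟩ <;>
      split_ifs at k1 k2 h2 <;> omega
  · simp only [if_neg hp]
    refine ⟨(y - loD D n p (cD D n H A B s0 w) w.1) / 2, ?_, ?_⟩ <;>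
      split_ifs at k1 k2 h2 <;> omega

lemma gW_sum {w : Sd × ℤ × ℤ} {y : ℤ} : (gW n p w y).1 + (gW n p w y).2 = y + lnW n p w := by
  unfold gW
  split_ifs <;> simp only <;> ring

/-- a tie at every position of the wall -/
lemma EdgA.tie_at (hE : EdgA D n H A B p s0)
    (hq : HtW D n p w.1 (qW D n p w.1).1 (qW D n p w.1).2) {y : ℤ}
    (h0 : (qW D n p w.1).1 ≤ y) (h1 : y ≤ (qW D n p w.1).2)
    (h2 : (y + lnW n p w.1) % 2 = (if cD D n H A B s0 w = true then 0 else 1)) :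
    TieP D p w.1.1 (cD D n H A B s0 w) (kb w.1.1 (cD D n H A B s0 w) (gW n p w.1 y)).1
        (kb w.1.1 (cD D n H A B s0 w) (gW n p w.1 y)).2 ∧
      fmA D p s0 (lt (kb w.1.1 (cD D n H A B s0 w) (gW n p w.1 y))) = fwD D n H A B s0 w ∧
      bA D p (lt (kb w.1.1 (cD D n H A B s0 w) (gW n p w.1 y))) = gp (gW n p w.1 y) := by
  have k3 := hq.lo0
  have k4 := hq.hi1
  obtain ⟨h3, h4⟩ := (hq.iff y (by omega) (by omega)).2 ⟨h0, h1⟩
  obtain ⟨k5, k6⟩ := tlW_tu (n := n) (p := p) w.1 y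
  have n1 := hE.near w (by omega) (by omega) h3
  have n2 := hE.near w (by omega) (by omega) h4
  have n1c := congrArg (colp D) n1.1
  have n1d := congrArg (colp D) n1.2
  have n2c := congrArg (colp D) n2.1
  have n2d := congrArg (colp D) n2.2
  rw [colp_arc] at n1c n1d n2c n2d
  rw [k6] at h3 n1c n1d
  rw [k5] at h4 n2c n2d
  have hev : H13.R45.ev (gW n p w.1 y) = cD D n H A B s0 w := by
    have := gW_sum (n := n) (p := p) (w := w.1) (y := y)
    rw [← this] at h2
    generalize gW n p w.1 y = g at h2 ⊢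
    obtain ⟨a, b⟩ := g
    generalize cD D n H A B s0 w = c at h2 ⊢
    cases c
    · rw [ev_false]; simpa using h2
    · rw [ev_true]; simpa using h2
  have hT := tie_of_pair h3 h4 hev n1c n2c n1d n2d
  refine ⟨hT, ?_, ?_⟩
  · have := hT.fm (s0 := s0)
    rw [show ((kb w.1.1 (cD D n H A B s0 w) (gW n p w.1 y)).1,
      (kb w.1.1 (cD D n H A B s0 w) (gW n p w.1 y)).2) = kb w.1.1 (cD D n H A B s0 w) (gW n p w.1 y)
      from rfl] at this
    rw [this]
    have k7 : kb w.1.1 (cD D n H A B s0 w) (gW n p w.1 y) = tu w.1.1 (gW n p w.1 y) ∨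
        kb w.1.1 (cD D n H A B s0 w) (gW n p w.1 y) = td w.1.1 (gW n p w.1 y) := by
      generalize gW n p w.1 y = g
      generalize w.1.1 = s
      generalize cD D n H A B s0 w = c
      cases s <;> cases c <;> simp [kb, tu, td]
    rcases k7 with k7 | k7
    · rw [k7, ← k5]; exact n2.2
    · rw [k7, ← k6]; exact n1.2
  · have := hT.b
    rw [show ((kb w.1.1 (cD D n H A B s0 w) (gW n p w.1 y)).1,
      (kb w.1.1 (cD D n H A B s0 w) (gW n p w.1 y)).2) = kb w.1.1 (cD D n H A B s0 w) (gW n p w.1 y)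
      from rfl, bt_kb] at this
    exact this

/-- **The field `fww`.** -/
theorem fww_D (hE : EdgA D n H A B p s0)
    (hq : ∀ w : Kp H A B, HtW D n p w.1 (qW D n p w.1).1 (qW D n p w.1).2) (w0 w : Kp H A B) (m : ℤ) :
    FWw (TA D p) (fmA D p s0) (bA D p) (LaA D p s0 m (fwD D n H A B s0 w)) (fwD D n H A B s0 w)
      (epD H A B w) (TW (TA D p) (wlD D n H A B p w0) w) (x0D D n H A B p s0 w)
      (ND D n H A B p s0 w) where
  odd := fun l hl => odd_TB hl
  sub := by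
    intro e he
    obtain ⟨h1, h2⟩ := mem_TW.1 he
    refine mem_TF.2 ⟨h1, ?_⟩
    rw [hE.hfw w0 e h1, h2]
  wall := by
    intro e he
    obtain ⟨h1, h2⟩ := mem_TW.1 he
    obtain ⟨u, v, s, c, rfl, h⟩ := exists_tie h1
    obtain ⟨k1, k2, k3, k4⟩ := hE.tie' w0 h
    rw [h2] at k1 k2 k3 k4
    subst k1
    obtain ⟨k5, k6⟩ := tie_pair h
    obtain ⟨k7, k8⟩ := tlW_tu (n := n) (p := p) w.1 (ps' w.1.1 (bt w.1.1 c (u, v)))
    rw [k3] at k7 k8
    obtain ⟨k9, k10⟩ := ((hq w).iff (ps' w.1.1 (bt w.1.1 c (u, v))) k2.1 (by omega)).1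
      ⟨by rw [k8]; exact k5, by rw [k7]; exact k6⟩
    have hc : c = cD D n H A B s0 w := by
      unfold cD
      rw [← k4]
      exact h.co.symm
    obtain ⟨t, h3, h4⟩ := exists_t (s0 := s0) hE.hn (hq w) k9 k10 (by
      have g1 := ev_bt (k := w.1.1) (c := c) h.odd
      have g2 := gW_sum (n := n) (p := p) (w := w.1) (y := ps' w.1.1 (bt w.1.1 c (u, v)))
      rw [k3] at g2
      rw [← g2, ← hc]
      generalize bt w.1.1 c (u, v) = g at g1 ⊢
      obtain ⟨a, b⟩ := g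
      cases c
      · rw [ev_false] at g1; simpa using g1
      · rw [ev_true] at g1; simpa using g1)
    refine ⟨t, h3, ?_⟩
    rw [wp_x0D, ← h4, k3, h.b]
    rfl
  full := by
    intro t h0 h1
    obtain ⟨h2, h3, h4⟩ := yD_facts (s0 := s0) hE.hn (hq w) h0 h1
    obtain ⟨k1, k2, k3⟩ := hE.tie_at (hq w) h2 h3 h4
    refine ⟨_, mem_TF.2 ⟨mem_TA.2 ⟨_, _, k1⟩, k2⟩, ?_⟩
    rw [k3, wp_x0D]
    rfl
  inj := bA_inj

/-! ### Separation -/

lemma np_gp (hg : H13.R45.ev g = c) : np c (gp g) = (g.1 - g.2, g.1 + g.2) := by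
  obtain ⟨a, b⟩ := g
  unfold np gp tc
  cases c
  · rw [ev_false] at hg
    simp only [Bool.false_eq_true, if_false, Prod.mk.injEq]; omega
  · rw [ev_true] at hg
    simp only [if_true, Prod.mk.injEq]; omega

lemma tcn_gp (hg : H13.R45.ev g = c) : tcn c (gp g) = g := by
  obtain ⟨a, b⟩ := g
  unfold tcn gp tc
  cases c
  · rw [ev_false] at hg
    simp only [Bool.false_eq_true, if_false, Prod.mk.injEq]; omega
  · rw [ev_true] at hg
    simp only [if_true, Prod.mk.injEq]; omega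

/-- a tie is next to its inner end -/
lemma lab_D : ∀ e ∈ TA D p, Nr 1 e (np (colp D (fmA D p s0 e)) (bA D p e)) := by
  intro e he
  obtain ⟨u, v, s, c, rfl, h⟩ := exists_tie he
  rw [h.co, h.b, np_gp (ev_bt h.odd)]
  unfold Nr lt
  cases s <;> cases c <;> simp only [bt, abs_le] <;> omega

/-- the tied vertices of a wall on their edge -/
lemma onEd_D (hE : EdgA D n H A B p s0)
    (hq : HtW D n p w.1 (qW D n p w.1).1 (qW D n p w.1).2) {t r : ℤ} (h0 : 0 ≤ r) (h1 : r ≤ t)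
    (h2 : t + r ≤ ND D n H A B p s0 w) :
    OnEd n (0, -sh p) (verS w.1.1) w.1.2.1 w.1.2.2 (2 * r)
      (tcn (colp D (fwD D n H A B s0 w)) (gm (epD H A B w) (wp 1 (x0D D n H A B p s0 w) t))) := by
  have k1 := lo_facts (D := D) (n := n) (p := p) (w := w) (c := cD D n H A B s0 w)
  have k2 := hi_facts (D := D) (n := n) (p := p) (w := w) (c := cD D n H A B s0 w)
  have k3 := hq.lo0
  have k4 := hq.hi1
  obtain ⟨h3, h4, h5⟩ := yD_facts (s0 := s0) hE.hn hq (t := t) (by omega) (by omega)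
  have hev : H13.R45.ev (gW n p w.1 (yD D n H A B p s0 w t)) = cD D n H A B s0 w := by
    have := gW_sum (n := n) (p := p) (w := w.1) (y := yD D n H A B p s0 w t)
    rw [← this] at h5
    generalize gW n p w.1 (yD D n H A B p s0 w t) = g at h5 ⊢
    obtain ⟨a, b⟩ := g
    generalize cD D n H A B s0 w = c at h5 ⊢
    cases c
    · rw [ev_false]; simpa using h5
    · rw [ev_true]; simpa using h5
  rw [wp_x0D]
  unfold epD
  rw [gm_gm, show colp D (fwD D n H A B s0 w) = cD D n H A B s0 w from rfl, tcn_gp hev]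
  have h6 : bW n p w.1 + 2 * r ≤ yD D n H A B p s0 w t ∧
      yD D n H A B p s0 w t + 2 * r ≤ bW n p w.1 + n := by
    unfold ND at h2
    change t + r ≤ (hiD D n p (cD D n H A B s0 w) w.1 - loD D n p (cD D n H A B s0 w) w.1) / 2 at h2
    unfold yD y0D
    split_ifs <;> omega
  generalize yD D n H A B p s0 w t = y at h6
  unfold gW
  unfold bW at h6
  unfold lnW
  by_cases hv : verS w.1.1 = true
  · simp only [if_pos hv] at h6 ⊢
    rw [hv]
    refine ⟨by ring, ?_, ?_⟩ <;> simp only <;> omega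
  · simp only [if_neg hv] at h6 ⊢
    rw [Bool.not_eq_true] at hv
    rw [hv]
    refine ⟨?_, ?_, ?_⟩ <;> simp only <;> omega

/-- two walls on one unit edge are equal -/
lemma wall_ext (h1 : verS w.1.1 = verS w'.1.1) (h2 : w.1.2.1 = w'.1.2.1) (h3 : w.1.2.2 = w'.1.2.2) :
    w = w' := by
  obtain ⟨⟨s, X, Y⟩, hw⟩ := w
  obtain ⟨⟨s', X', Y'⟩, hw'⟩ := w'
  simp only at h1 h2 h3
  subst h2
  subst h3
  rw [mem_EdF] at hw hw'
  cases s <;> cases s' <;> simp only [verS, Bool.false_eq_true, Bool.true_eq_false] at h1 <;>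
    first
      | rfl
      | (simp only [Ed] at hw hw'; tauto)

/-- **The field `sep`.** -/
theorem sep_D (hE : EdgA D n H A B p s0)
    (hq : ∀ w : Kp H A B, HtW D n p w.1 (qW D n p w.1).1 (qW D n p w.1).2) (w0 w w' : Kp H A B)
    (m : ℤ) (hne : w ≠ w') :
    SepV (Lx (colp D) (LaA D p s0 m) (fwD D n H A B s0 w) (epD H A B w))
      (VI (TA D p) (fmA D p s0) (bA D p) (fwD D n H A B s0 w) (epD H A B w)) (x0D D n H A B p s0 w)
      (ND D n H A B p s0 w)
      (vpi (TA D p) (fmA D p s0) (colp D) (bA D p) (fwD D n H A B s0 w) (epD H A B w))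
      (Lx (colp D) (LaA D p s0 m) (fwD D n H A B s0 w') (epD H A B w'))
      (VI (TA D p) (fmA D p s0) (bA D p) (fwD D n H A B s0 w') (epD H A B w')) (x0D D n H A B p s0 w')
      (ND D n H A B p s0 w')
      (vpi (TA D p) (fmA D p s0) (colp D) (bA D p) (fwD D n H A B s0 w') (epD H A B w')) :=
  sepV_ed (fww_D hE hq w0 w m) (fww_D hE hq w0 w' m) lab_D
    (fun _ _ h0 h1 h2 => onEd_D hE (hq w) h0 h1 h2) (fun _ _ h0 h1 h2 => onEd_D hE (hq w') h0 h1 h2)
    (fun h => hne (wall_ext h.1 h.2.1 h.2.2))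

/-! ### Ties near the ends -/

/-- **Ties which are not flat are near an end.** -/
theorem end_D (hE : EdgA D n H A B p s0)
    (hq : ∀ w : Kp H A B, HtW D n p w.1 (qW D n p w.1).1 (qW D n p w.1).2) (w0 w : Kp H A B)
    {r ρ : ℤ} (hr : r ≤ 2 * ρ + 1) {e : ℤ × ℤ} (he : e ∈ TW (TA D p) (wlD D n H A B p w0) w)
    (hn : e ∉ FlD D n H A B p w0 r w) :
    inR (wp 1 (x0D D n H A B p s0 w) 0) ρ (gm (epD H A B w) (bA D p e)) ∨
      inR (wp 1 (x0D D n H A B p s0 w) (ND D n H A B p s0 w)) ρ (gm (epD H A B w) (bA D p e)) := by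
  have k1 := lo_facts (D := D) (n := n) (p := p) (w := w) (c := cD D n H A B s0 w)
  have k2 := hi_facts (D := D) (n := n) (p := p) (w := w) (c := cD D n H A B s0 w)
  have k3 := (hq w).lo0
  have k4 := (hq w).hi1
  obtain ⟨h1, h2⟩ := mem_TW.1 he
  obtain ⟨t, ⟨h3, h4⟩, h5⟩ := (fww_D (s0 := s0) hE hq w0 w 0).wall e he
  rw [h5]
  obtain ⟨u, v, s, c, rfl, h⟩ := exists_tie h1
  obtain ⟨k5, k6, k7, k8⟩ := hE.tie' w0 h
  rw [h2] at k5 k6 k7 k8
  subst k5
  have hc : c = cD D n H A B s0 w := by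
    unfold cD
    rw [← k8]
    exact h.co.symm
  obtain ⟨h6, h7, h8⟩ := yD_facts (s0 := s0) hE.hn (hq w) h3 h4
  -- the position
  have hpo : poD D p (lt (u, v)) = yD D n H A B p s0 w t := by
    rw [wp_x0D] at h5
    have h9 := gm_inj h5
    rw [h.b, ← k7] at h9
    have h10 := gp_inj h9 (by
      rw [k7, ev_bt h.odd, hc]
      have := gW_sum (n := n) (p := p) (w := w.1) (y := yD D n H A B p s0 w t)
      rw [← this] at h8
      generalize gW n p w.1 (yD D n H A B p s0 w t) = g at h8 ⊢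
      obtain ⟨a, b⟩ := g
      generalize cD D n H A B s0 w = c at h8 ⊢
      cases c
      · symm; rw [ev_false]; simpa using h8
      · symm; rw [ev_true]; simpa using h8)
    rw [poD_tie h]
    have h11 : ps' w.1.1 (bt w.1.1 c (u, v)) = yD D n H A B p s0 w t := by
      unfold gW at h10
      split_ifs at h10
      · simpa using h10
      · simpa using h10
    exact h11
  have h12 : poD D p (lt (u, v)) < bW n p w.1 + r ∨ bW n p w.1 + n < poD D p (lt (u, v)) + r := by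
    by_contra hcon
    push Not at hcon
    apply hn
    unfold FlD
    rw [mem_filter]
    exact ⟨h1, h2, hcon.1, hcon.2⟩
  rw [hpo] at h12
  have h13 : t ≤ ρ ∨ ND D n H A B p s0 w - t ≤ ρ := by
    unfold ND at h4 ⊢
    change t ≤ (hiD D n p (cD D n H A B s0 w) w.1 - loD D n p (cD D n H A B s0 w) w.1) / 2 at h4
    change _ ∨ (hiD D n p (cD D n H A B s0 w) w.1 - loD D n p (cD D n H A B s0 w) w.1) / 2 - t ≤ ρ
    unfold yD y0D at h12
    split_ifs at h12 k1 k2 <;> omega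
  rcases h13 with h13 | h13
  · left
    rw [inR_iff]
    unfold wp
    simp only
    omega
  · right
    rw [inR_iff]
    unfold wp
    simp only
    omega

end Pool.Agent.H59.W
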