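import Mathlib
import Pool.Agent.H59.W.FwwD
import Pool.Agent.H59.W.FinP
import Pool.Agent.H31.Sp.WeD
import Pool.Agent.H31.Sp.Str

set_option autoImplicit false
open Finset

/-!
# Windows: the structure `EdgA` from the arcs of the layer tiles, the walls `WD`
-/

namespace Pool.Agent.H59.W

open Pool.Agent.H75.Perc Pool.Agent.H75.TwoArm Pool.Agent.H75.Four Pool.Agent.H69.Q1
open Pool.Agent.Q1 Pool.Agent.H99.NC Pool.Agent.H49.Perc Pool.Agent.H60.Q1
open Pool.Agent.H39.Q1 Pool.Agent.H59.Q1 Pool.Agent.Q1.M6e Pool.Agent.H39.R45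
open Pool.Agent.H33.Q1 (lt tt tt_lt)
open Pool.Agent.H46.Sp (Win)
open Pool.Agent.H74.Win (InP sh sh_nonneg sh_le OutB natc odd_TB)
open Pool.Agent.H42.Sp (Sd kt)
open Pool.Agent.H13.Sp
open Pool.Agent.H13.R45 (gp ev_true ev_false)
open Pool.Agent.H54.Sp (eS dS)
open Pool.Agent.H44.FM.AsmW (TW mem_TW)
open Pool.Agent.H31.Sp

variable {D : Win} {n H : ℤ} {A B : ℤ → ℤ} {p : Bool} {s0 u v x y : ℤ} {s : Sd} {c : Bool}
  {w w' w0 : Kp H A B} {g : ℤ × ℤ} {YP YQ : ℤ} {CL CR : ℤ → Bool}

lemma div_rng (hn : 0 < n) (a : ℤ) : n * (a / n) ≤ a ∧ a < n * (a / n) + n := by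
  have h1 := Int.emod_add_mul_ediv a n
  have h2 := Int.emod_nonneg a hn.ne'
  have h3 := Int.emod_lt_of_pos a hn
  omega

/-- **The edges and arcs of the layer tiles.** -/
theorem edgA (hB : ArcB D n H A B p s0) (C : Coarse D n H A B) : EdgA D n H A B p s0 where
  hn := C.hn
  ed := by
    have hn := C.pos
    intro s u v h
    cases s
    · obtain ⟨h1, h2, h3, h4, h5⟩ := hB.L u v h
      have h6 := div_rng hn (v + sh p)
      refine ⟨⟨(.L, (u + 1) / n, (v + sh p) / n), mem_EdF.2 ⟨h2, h3⟩⟩, rfl, v, ?_, ?_, ?_, ?_⟩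
      · show n * ((v + sh p) / n) - sh p ≤ v ∧ v < n * ((v + sh p) / n) - sh p + n
        omega
      · show (n * ((u + 1) / n) - 1, v) = (u, v)
        exact Prod.ext (by simp only; omega) rfl
      · rw [h4]; unfold fwD verS; simp only [if_true]; exact (vA_in h2).symm
      · simp only [dr, sub_zero]
        rw [h5]; unfold fwD verS; simp only [if_true]; exact (vA_in h2).symm
    · obtain ⟨h1, h2, h3, h4, h5⟩ := hB.R u v h
      have h6 := div_rng hn (v + sh p)
      refine ⟨⟨(.R, u / n, (v + sh p) / n), mem_EdF.2 ⟨h3, h2⟩⟩, rfl, v, ?_, ?_, ?_, ?_⟩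
      · show n * ((v + sh p) / n) - sh p ≤ v ∧ v < n * ((v + sh p) / n) - sh p + n
        omega
      · show (n * (u / n), v) = (u, v)
        exact Prod.ext (by simp only; omega) rfl
      · rw [h4]; unfold fwD verS; simp only [if_true]; exact (vA_out h3).symm
      · simp only [dr, sub_zero, sub_neg_eq_add]
        rw [h5]; unfold fwD verS; simp only [if_true]; exact (vA_out h3).symm
    · obtain ⟨h1, h2, h3, h4, h5⟩ := hB.F u v h
      have h6 := div_rng hn u
      refine ⟨⟨(.F, u / n, (v + sh p + 1) / n), mem_EdF.2 ⟨h2, h3⟩⟩, rfl, u, ?_, ?_, ?_, ?_⟩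
      · show n * (u / n) ≤ u ∧ u < n * (u / n) + n
        omega
      · show (u, n * ((v + sh p + 1) / n) - sh p - 1) = (u, v)
        exact Prod.ext rfl (by simp only; omega)
      · rw [h4]; unfold fwD verS; simp only [Bool.false_eq_true, if_false]
      · simp only [dr, sub_zero]
        rw [h5]; unfold fwD verS; simp only [Bool.false_eq_true, if_false]
    · obtain ⟨h1, h2, h3, h4, h5⟩ := hB.C u v h
      have h6 := div_rng hn u
      refine ⟨⟨(.C, u / n, (v + sh p) / n), mem_EdF.2 ⟨h3, h2⟩⟩, rfl, u, ?_, ?_, ?_, ?_⟩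
      · show n * (u / n) ≤ u ∧ u < n * (u / n) + n
        omega
      · show (u, n * ((v + sh p) / n) - sh p) = (u, v)
        exact Prod.ext rfl (by simp only; omega)
      · rw [h4]; unfold fwD verS; simp only [Bool.false_eq_true, if_false]
      · simp only [dr, sub_zero, sub_neg_eq_add]
        rw [h5]; unfold fwD verS; simp only [Bool.false_eq_true, if_false]
  ad := by
    have hn := C.pos
    rintro ⟨⟨s, X, Y⟩, hw⟩ ⟨⟨s', X', Y'⟩, hw'⟩ h1 h2 h3
    simp only at h1
    subst h1
    rw [mem_EdF] at hw hw'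
    cases s <;> simp only [lnW, bW, verS, if_true, Bool.false_eq_true, if_false] at h2 h3 <;>
      simp only [Ed] at hw hw'
    · have e1 : X' = X := mul_left_cancel₀ hn.ne' h2.symm
      have e2 : Y' = Y + 1 := mul_left_cancel₀ hn.ne' (by linarith)
      subst e1
      subst e2
      obtain ⟨a1, a2⟩ := hw
      obtain ⟨b1, b2⟩ := hw'
      unfold fwD
      simp only [verS, if_true]
      rw [vA_in a1, vA_in b1]
      obtain ⟨c1, c2, c3, c4⟩ := a1
      obtain ⟨d1, d2, d3, d4⟩ := b1
      refine hB.eL Y c1 d2 ?_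
      unfold H31.Sp.CQ at a2 b2
      omega
    · have e1 : X' = X := mul_left_cancel₀ hn.ne' h2.symm
      have e2 : Y' = Y + 1 := mul_left_cancel₀ hn.ne' (by linarith)
      subst e1
      subst e2
      obtain ⟨a1, a2⟩ := hw
      obtain ⟨b1, b2⟩ := hw'
      unfold fwD
      simp only [verS, if_true]
      rw [vA_out a1, vA_out b1]
      obtain ⟨c1, c2, c3, c4⟩ := a2
      obtain ⟨d1, d2, d3, d4⟩ := b2
      refine hB.eR Y c1 d2 ?_
      unfold H31.Sp.CQ at a1 b1
      omega
    · have e1 : X' = X + 1 := mul_left_cancel₀ hn.ne' (by linarith)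
      have e2 : Y' = Y := mul_left_cancel₀ hn.ne' (by linarith)
      subst e1
      subst e2
      obtain ⟨a1, a2⟩ := hw
      obtain ⟨b1, b2⟩ := hw'
      unfold fwD hA
      simp only [verS, Bool.false_eq_true, if_false]
      rw [if_pos a1, if_pos b1]
      by_cases hY : Y' = 0
      · rw [if_pos hY, if_pos hY]
      · rw [if_neg hY, if_neg hY]
        have hAB := C.AB (Y' - 1)
        unfold H31.Sp.CQ at a1 a2 b1 b2
        have hlt := hAB (by omega) (by omega)
        by_cases hX : X < A (Y' - 1)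
        · rw [if_pos hX, if_pos (by omega)]
        · rw [if_neg hX, if_neg (by omega)]
    · have e1 : X' = X + 1 := mul_left_cancel₀ hn.ne' (by linarith)
      have e2 : Y' = Y := mul_left_cancel₀ hn.ne' (by linarith)
      subst e1
      subst e2
      obtain ⟨a1, a2⟩ := hw
      obtain ⟨b1, b2⟩ := hw'
      unfold fwD hA
      simp only [verS, Bool.false_eq_true, if_false]
      rw [if_neg a1, if_neg b1]
      by_cases hY : Y' = H
      · rw [if_pos hY, if_pos hY]
      · rw [if_neg hY, if_neg hY]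
        have hAB := C.AB Y'
        unfold H31.Sp.CQ at a1 a2 b1 b2
        have hlt := hAB (by omega) (by omega)
        by_cases hX : X < A Y'
        · rw [if_pos hX, if_pos (by omega)]
        · rw [if_neg hX, if_neg (by omega)]

/-- **The walls of a window.** -/
theorem wdD (hC : CoarseC D n H A B YP YQ CL CR) (hcut : colp D (s0 - 1) ≠ colp D s0) {Dd m : ℤ} {Q : ℝ}
    (hD : 4 * Dd + 40 ≤ n) (hD0 : 0 ≤ Dd) (hm : 2 * Dd + 7 ≤ m) (hQ : (n : ℝ) ≤ 2 * (Q * Dd))
    (w0 : Kp H A B) :
    WD (LBA D p (m + 1)) (TA D p) (fmA D p s0) (colp D) (LaA D p s0 m) (bA D p)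
      (wlD D n H A B p w0) (fwD D n H A B s0) (epD H A B) (x0D D n H A B p s0) (ND D n H A B p s0)
      Dd Q := by
  have hE : EdgA D n H A B p s0 := edgA (arcB hC hcut) hC.toCoarse
  have hq := fun w => hqD (p := p) hC.toCoarse (show 16 ≤ n by omega) w
  exact
    { dBT := dBT_D
      laB := laB_D
      fww := fun w => fww_D hE hq w0 w m
      we := fun w => weD hC hcut hD hD0 hm w
      sep := fun w w' hne => sep_D hE hq w0 w w' m hne
      len := fun w => lenD hC.toCoarse (by omega) hQ w }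

end Pool.Agent.H59.W
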