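import Mathlib
import Pool.Agent.H59.W.EdgA
import Pool.Agent.H59.W.FinP
import Pool.Agent.H40.Sp.WcrC
import Pool.Agent.H20.Sp.WinC
import Pool.Agent.H54.Sp.FlatT
import Pool.Agent.H46.Sp.RootC
import Pool.Agent.H46.Sp.PathC
import Pool.Agent.Q1.M6e.Wn.PW

set_option autoImplicit false
open Finset

/-!
# Windows: `FineP PW`

`inpD` : the inputs of `FineP` for one tied natural window. `finePW` : the class `PW` satisfies `FineP`.
-/

namespace Pool.Agent.H59.W

open Pool.Agent.H75.Perc Pool.Agent.H75.TwoArm Pool.Agent.H75.Four Pool.Agent.H69.Q1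
open Pool.Agent.Q1 Pool.Agent.H99.NC Pool.Agent.H49.Perc Pool.Agent.H60.Q1
open Pool.Agent.H39.Q1 Pool.Agent.H59.Q1 Pool.Agent.Q1.M6e Pool.Agent.H39.R45
open Pool.Agent.H46.Sp (Win)
open Pool.Agent.H74.Win (InP sh sh_nonneg sh_le OutB natc odd_TB EN fillc mem_EN)
open Pool.Agent.H42.Sp (Sd kt)
open Pool.Agent.H13.Sp
open Pool.Agent.H13.R45 (gp ev_true ev_false Ag OutF)
open Pool.Agent.H54.Sp (eS dS flatD)
open Pool.Agent.H44.FM.AsmW (TW mem_TW Walls)
open Pool.Agent.H40.Sp (Cht CrW NatS wcrC farX card_GmC GmC TnX LamX LX iLs iFs kS)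
open Pool.Agent.H31.Sp
open Pool.Agent.H20.Sp (Ports OutOK)
open Pool.Agent.Q1.M6e.Wn

variable {D : Win} {n H : ℤ} {A B : ℤ → ℤ} {p : Bool} {s0 L m : ℤ} {YP YQ : ℤ} {CL CR : ℤ → Bool}
  {O : OutB D} {S : Finset (ℤ × ℤ)} {hS : S ⊆ FR D p} {w0 : Kp H A B} {u v : ℤ × ℤ}

lemma dp_mono {m m' x y : ℤ} (h : m ≤ m') (hd : Dp D p m' x y) : Dp D p m x y :=
  fun u v h1 h2 h3 h4 => hd u v (by omega) (by omega) (by omega) (by omega)

/-- **The inputs for one case.** `m` : thickness of the layers. -/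
theorem inpD (hC : CoarseC D n H A B YP YQ CL CR) (hcut : colp D (s0 - 1) ≠ colp D s0)
    (hNat : NatS D p S) (hm : 256 ≤ m) (hmn : 16 * m ≤ n) (hL : 2 * m ≤ L) (hO : OutOK O L)
    {d : ℝ} (hab : Lk (InP D p) d u v) (hd : 4 * (m : ℝ) ≤ d) {θ Q C : ℝ} {ν R : ℕ}
    (hθ : 32 * θ * R ≤ m) (hQ : (n : ℝ) ≤ Q / 16 * m) (hnC : (n : ℝ) ≤ C * R)
    (hν : Fintype.card (Kp H A B) ≤ ν) (hH : 2 * (H + 1) ≤ ν) :
    Nonempty (Inp θ Q (θ / 4) C ν 8 R (caseW O n H A B p s0 L m S hS w0 u v)) := by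
  have hB : ArcB D n H A B p s0 := arcB hC hcut
  have hE : EdgA D n H A B p s0 := edgA hB hC.toCoarse
  have hq := fun w => hqD (p := p) hC.toCoarse (show 16 ≤ n by omega) w
  have hlayer : LBA D p (m + 1) ⊆ EN D p := by
    intro e he
    obtain ⟨x, y, rfl⟩ := Pool.Agent.H74.R45.exists_lt (odd_TB he)
    exact mem_EN.2 (mem_LBA.1 he).1
  have hm' : (256 : ℝ) ≤ m := by exact_mod_cast hm
  have hdeep : ∀ c ∈ LC u.1 u.2 v.1 v.2, ∀ g, Ag g c → ∀ x y, OnT g x y → Dp D p (3 * m) x y := by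
    intro c hc
    refine Pool.Agent.H46.Sp.CG.deep_LC hab ?_ hc
    push_cast
    linarith
  have hmul : Multi (XA O p S hS) (WA O p S) (EN D p) (LBA D p (m + 1)) (TA D p) (fmA D p s0) (colp D)
      (WlA D p s0 L S) (LaA D p s0 m) (bA D p) (oA D p) :=
    multiA hS (by omega) hO.free (by omega) (Subset.refl _) hlayer
  have h1D : (m : ℝ) ≤ 16 * ((m / 16 : ℤ) : ℝ) + 16 := by
    have : m ≤ 16 * (m / 16) + 16 := by omega
    exact_mod_cast this
  have h2D : (16 : ℝ) ≤ ((m / 16 : ℤ) : ℝ) := by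
    have : 16 ≤ m / 16 := by omega
    exact_mod_cast this
  have hQ0 : 0 ≤ Q := by
    have h4 : (0 : ℝ) < n := by exact_mod_cast (show 0 < n by omega)
    by_contra hc
    push Not at hc
    nlinarith
  have hcr := wcrC (O := O) (p := p) (S := S) (h := m) (Dd := m / 16) (Q := Q) hC hcut hS hNat
    (show 5 ≤ L by omega) (by omega) (by omega) (by omega) (by nlinarith) w0
  have hfar := fun c (hc : c ∈ LC u.1 u.2 v.1 v.2) =>
    farX (hS := hS) (h := m) (m' := 2 * m + 2) hC hcut hNat (show 5 ≤ L by omega) (by omega) le_rfl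
      (by omega) hO.root (c := c)
      fun g hg x y hxy => dp_mono (by omega) (hdeep c hc g hg x y hxy)
  refine ⟨
    { γ := Bool × ℤ
      dγ := inferInstance
      Γ := GmC D n H
      h := m
      Tn := TnX D p s0 n H A B m
      Λ := LamX D p s0 n H A B m
      L := LX D p n H A B m
      iL := iLs D p s0 n H A B
      iF := iFs D p s0 n H A B
      χ := kS D p n H A B
      Um := fun _ => 2 * (2 * m + 2)
      Vm := fun _ => 2 * (2 * m + 2)
      Dm := fun _ => 2 * (2 * m + 2)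
      x0 := x0D D n H A B p s0
      N := ND D n H A B p s0
      D := m / 16
      ne := ⟨w0⟩
      card := hν
      cardΓ := ?_
      mul := hmul
      wcr := hcr
      far := fun c hc => (hfar c hc).1
      farΛ := fun g hg c hc => (hfar c hc).2 g hg
      rk := ?_
      len := ?_
      flt := ?_ }⟩
  · have := card_GmC (D := D) (n := n) (H := H) hC.HH.le
    exact_mod_cast this.trans hH
  · exact rk_inj_mk (fun w => fww_D hE hq w0 w m) (hE.hfw w0)
  · nlinarith
  · intro R' h1 h2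
    have h3 : 128 * R' ≤ m := by
      have : (128 : ℝ) * R' ≤ m := by nlinarith
      exact_mod_cast this
    have h8 : 8 ≤ R' := by exact_mod_cast h1
    refine ⟨FlD D n H A B p w0 (2 * R' + 9), ?_, ?_, ?_⟩
    · exact walls_mk (fun w => fww_D hE hq w0 w m) (hE.hfw w0) (hsubD w0 _)
        (hlocD hB hC.toCoarse w0 (by omega) (by omega))
        (fun w e he => flatD hC hcut (by omega) (by omega) hS (by omega) (by omega) hO.port
          (by omega) he)
        (fun w e he => by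
          have h4 := hE.hfw w0 e (mem_TW.1 (hsubD w0 _ w he)).1
          rw [(mem_TW.1 (hsubD w0 _ w he)).2] at h4
          have h5 := Pool.Agent.H46.Sp.CG.root_A (O := O) (L := L) (R := R') (s0 := s0) hO.root
            (by omega) (mem_TW.1 (hsubD w0 _ w he)).1
          rwa [h4] at h5)
        (fun w e he c hc => by
          have h4 := hE.hfw w0 e (mem_TW.1 (hsubD w0 _ w he)).1
          rw [(mem_TW.1 (hsubD w0 _ w he)).2] at h4
          have h5 := Pool.Agent.H46.Sp.CG.cs_A (c := c) (m := 3 * m) (R := R') (s0 := s0)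
            (hdeep c hc) (by omega) (mem_TW.1 (hsubD w0 _ w he)).1
          rwa [h4] at h5)
    · intro w
      exact (cardD hB hC.toCoarse w0 (by omega) w).trans hnC
    · intro w e he hn
      exact end_D hE hq w0 w (r := 2 * R' + 9) (ρ := 2 * R') (by omega) he hn

/-- **The class of the tied natural windows satisfies `FineP`.** -/
theorem finePW : FineP PW := by
  refine fineP_of fun η hη => ?_
  set k : ℕ := ⌊1 / η ^ 2⌋₊ with hk
  refine ⟨η / 4096, 2048 / η ^ 2, η / 16384, 1 / η, 8 * (k * (k + 1)) + 2 * (k + 1),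
    max 8 ⌈16384 / η⌉₊, by positivity, by positivity, ?_⟩
  rintro R hR x ⟨D, O, n, H, A, B, YP, YQ, CL, CR, p, s0, S, u, v, h, w0, rfl⟩
  have hR8 : 8 ≤ R := (le_max_left _ _).trans hR
  have hR1 : 16384 / η ≤ R := (Nat.le_ceil _).trans (by exact_mod_cast (le_max_right _ _).trans hR)
  have hRη : 16384 ≤ η * R := by
    rw [div_le_iff₀ hη] at hR1
    linarith
  have hR0 : 1 ≤ R := by omega
  have hRr : (0 : ℝ) < R := by exact_mod_cast hR0
  have hm : 256 ≤ mW η R := le_mW (by push_cast; linarith)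
  have hmr : η * R / 128 ≤ (mW η R : ℝ) := by
    have h1 := Int.lt_floor_add_one (η * R / 64)
    have h2 : (mW η R : ℝ) = (⌊η * (R : ℝ) / 64⌋ : ℝ) := rfl
    rw [h2]
    linarith
  have hmu : (mW η R : ℝ) ≤ η * R / 64 := mW_le
  have hL : 2 * mW η R ≤ LW η R := le_LW (by push_cast; linarith)
  have hmn : 64 * mW η R ≤ n := h.m_le_n hη
  have hH := h.H_le hη hR0
  have hHk : H ≤ k := by
    have h1 : H.toNat ≤ k := by
      refine Nat.le_floor ?_
      have h3 : (H.toNat : ℝ) = ((H.toNat : ℤ) : ℝ) := by push_cast; rfl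
      rw [h3, Int.toNat_of_nonneg h.co.HH.le]
      exact hH
    omega
  have hnR : (n : ℝ) ≤ R / η := by
    refine le_trans ?_ h.h2
    rw [h.co.hh]
    have hn := h.co.toCoarse.pos
    have hH1 := h.co.HH
    exact_mod_cast (by nlinarith : n ≤ n * H)
  obtain ⟨I⟩ := inpD (O := O) (hS := h.sub) (w0 := w0) (θ := η / 4096) (Q := 2048 / η ^ 2) (C := 1 / η)
    (ν := 8 * (k * (k + 1)) + 2 * (k + 1)) (R := R) h.co h.cut h.nat hm (by omega) hL h.out h.lk
    (by linarith) (by linarith) (by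
      refine hnR.trans ?_
      have h1 : 2048 / η ^ 2 / 16 * (η * R / 128) ≤ 2048 / η ^ 2 / 16 * (mW η R : ℝ) :=
        mul_le_mul_of_nonneg_left hmr (by positivity)
      refine le_trans (le_of_eq ?_) h1
      field_simp
      norm_num) (by
      refine hnR.trans (le_of_eq ?_)
      ring) ((h.card_le hη hR0).trans (Nat.le_add_right _ _)) (by
      push_cast
      have : (0 : ℤ) ≤ 8 * (k * (k + 1)) := by positivity
      linarith)
  exact ⟨
    { I with
      flt := fun R' h1 h2 => I.flt R' (by omega) (by linarith) }⟩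

end Pool.Agent.H59.W
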