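import Mathlib
import Pool.Agent.H20.Sp.BdW
import Pool.Agent.Q1.M6e.ApXL
import Pool.Agent.Q1.M6e.Wn.PW

set_option autoImplicit false
open Finset

/-!
# Windows: `HVP PW`

`hvPW` : the bound of the potential differences for every pattern of the layer and of the ties.
-/

namespace Pool.Agent.H59.W

open Pool.Agent.H75.Perc Pool.Agent.H75.TwoArm Pool.Agent.H69.Q1
open Pool.Agent.Q1 Pool.Agent.H39.Q1 Pool.Agent.Q1.M6e
open Pool.Agent.H46.Sp (Win)
open Pool.Agent.H74.Win (InP OutB odd_TB EN mem_EN)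
open Pool.Agent.H13.Sp
open Pool.Agent.H20.Sp (lk_size)
open Pool.Agent.Q1.M6e.Wn

/-- **The bound of the potential differences for the class `PW`.** -/
theorem hvPW : HVP PW := by
  intro η hη
  obtain ⟨C, -, R0, H⟩ := VM_lk hη
  refine ⟨C, max ⌈R0⌉₊ ⌈4 / η⌉₊, ?_⟩
  rintro R hR x ⟨D, O, n, H', A, B, YP, YQ, CL, CR, p, s0, S, u, v, h, w0, rfl⟩
  have hR1 : R0 ≤ R := Nat.ceil_le.1 ((le_max_left _ _).trans hR)
  have hR2 : 4 / η ≤ R := Nat.ceil_le.1 ((le_max_right _ _).trans hR)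
  have hRη : 4 ≤ η * R := by
    rw [div_le_iff₀ hη] at hR2
    linarith
  obtain ⟨s1, s2⟩ := lk_size (by linarith) h.lk h.h2 h.w2
  have hlayer : LBA D p (mW η R + 1) ⊆ EN D p := by
    intro e he
    obtain ⟨x, y, rfl⟩ := Pool.Agent.H74.R45.exists_lt (odd_TB he)
    exact mem_EN.2 (mem_LBA.1 he).1
  intro ω hω P _
  refine H (XA O p S h.sub) planeK_plane (EN D p) (LBA D p (mW η R + 1)) (TA D p) subset_union_left ?_
    subset_union_right hlayer (fmA D p s0) (colp D) (InP D p) (mW η R + 1) u v R hR1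
    (fun x y h => mem_EN.2 h) ?_ ?_ s1 s2 h.lk ω hω P
  · rw [disjoint_left]
    intro e he he'
    obtain ⟨u, v, k, c, rfl, h⟩ := exists_tie he'
    exact h.ly.out (mem_EN.1 he)
  · intro x y hxy
    obtain ⟨-, u, v, h1, h2⟩ := mem_LBA.1 hxy
    exact ⟨u, v, h1, by rw [abs_le]; omega, by rw [abs_le]; omega⟩
  · push_cast
    have := mW_le (η := η) (R := R)
    linarith

end Pool.Agent.H59.W
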